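import Pool.Agent.ARP.Pri

set_option autoImplicit false

/-!
# ARP module PSU: one scale, all integers with a large prime factor

`m = s q` with `q ≥ (T / 4) ^ 13` prime; `s ≤ N / (T / 4) ^ 13`, for fixed `s` the number of `q` is
at most `(N / s) ^ (51 / 100) T ^ (101 / 20)` (`prime_scale`).  The sum over `s` is at most
`(100 / 49) N ((T / 4) ^ 13) ^ (- 49 / 100) T ^ (101 / 20) ≤ N T ^ (- 5 / 4)`.
-/

namespace Pool.Agent.ARP

open Pool.Agent.ARS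

/-- `∑_{s ≤ S} s ^ (-51/100) ≤ (100/49) S ^ (49/100)` -/
lemma sum_rpow (S : ℕ) : ∑ s ∈ Finset.Icc 1 S, (s : ℝ) ^ (-(51 / 100) : ℝ) ≤
    100 / 49 * (S : ℝ) ^ (49 / 100 : ℝ) := by
  induction S with
  | zero => simp
  | succ n ih =>
    rw [Finset.sum_Icc_succ_top (by omega)]
    have hn1 : (0 : ℝ) < (n : ℝ) + 1 := by positivity
    have hn0 : (0 : ℝ) ≤ (n : ℝ) := Nat.cast_nonneg n
    have hs1 : (1 : ℝ) / ((n : ℝ) + 1) ≤ 1 := by
      rw [div_le_one hn1]; linarith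
    have h2 := rpow_one_add_le_one_add_mul_self (s := -(1 / ((n : ℝ) + 1))) (by linarith)
      (p := 49 / 100) (by norm_num) (by norm_num)
    have h3 : (n : ℝ) = ((n : ℝ) + 1) * (1 + -(1 / ((n : ℝ) + 1))) := by
      field_simp
      ring
    have h4 : (n : ℝ) ^ (49 / 100 : ℝ) ≤
        ((n : ℝ) + 1) ^ (49 / 100 : ℝ) * (1 + 49 / 100 * -(1 / ((n : ℝ) + 1))) := by
      calc (n : ℝ) ^ (49 / 100 : ℝ)
          = (((n : ℝ) + 1) * (1 + -(1 / ((n : ℝ) + 1)))) ^ (49 / 100 : ℝ) := by rw [← h3]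
        _ = ((n : ℝ) + 1) ^ (49 / 100 : ℝ) * (1 + -(1 / ((n : ℝ) + 1))) ^ (49 / 100 : ℝ) :=
            Real.mul_rpow hn1.le (by linarith)
        _ ≤ _ := mul_le_mul_of_nonneg_left h2 (by positivity)
    have h5 : ((n : ℝ) + 1) ^ (-(51 / 100) : ℝ) =
        ((n : ℝ) + 1) ^ (49 / 100 : ℝ) * (1 / ((n : ℝ) + 1)) := by
      rw [show (-(51 / 100) : ℝ) = 49 / 100 - 1 by norm_num, Real.rpow_sub hn1, Real.rpow_one]
      ring
    push_cast
    rw [h5]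
    have h6 : 100 / 49 * (n : ℝ) ^ (49 / 100 : ℝ) ≤
        100 / 49 * (((n : ℝ) + 1) ^ (49 / 100 : ℝ) * (1 + 49 / 100 * -(1 / ((n : ℝ) + 1)))) :=
      mul_le_mul_of_nonneg_left h4 (by norm_num)
    have h7 : 100 / 49 * (((n : ℝ) + 1) ^ (49 / 100 : ℝ) *
        (1 + 49 / 100 * -(1 / ((n : ℝ) + 1)))) =
        100 / 49 * ((n : ℝ) + 1) ^ (49 / 100 : ℝ) -
          ((n : ℝ) + 1) ^ (49 / 100 : ℝ) * (1 / ((n : ℝ) + 1)) := by
      ring
    linarith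

/-- the final numbers -/
lemma psu_final {T : ℝ} (hT : (4 : ℝ) ^ 120 ≤ T) :
    100 / 49 * (T ^ (101 / 20 : ℝ) * (T / 4) ^ (-(637 / 100) : ℝ)) ≤ T ^ (-(5 / 4) : ℝ) := by
  have hT0 : 0 < T := lt_of_lt_of_le (by positivity) hT
  have h4 : 1 ≤ Real.log 4 := by
    rw [Real.le_log_iff_exp_le (by norm_num)]
    linarith [Real.exp_one_lt_d9]
  have hlog : 120 * Real.log 4 ≤ Real.log T := by
    have h1 := Real.log_le_log (by positivity) hT
    rw [Real.log_pow] at h1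
    exact_mod_cast h1
  have hc : (100 / 49 : ℝ) ≤ Real.exp 1 := by linarith [Real.exp_one_gt_d9]
  rw [Real.rpow_def_of_pos hT0, Real.rpow_def_of_pos (by positivity : (0 : ℝ) < T / 4),
    Real.rpow_def_of_pos hT0, Real.log_div hT0.ne' (by norm_num), ← Real.exp_add]
  calc 100 / 49 * Real.exp (Real.log T * (101 / 20) +
        (Real.log T - Real.log 4) * -(637 / 100))
      ≤ Real.exp 1 * Real.exp (Real.log T * (101 / 20) +
        (Real.log T - Real.log 4) * -(637 / 100)) :=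
        mul_le_mul_of_nonneg_right hc (Real.exp_pos _).le
    _ = Real.exp (1 + (Real.log T * (101 / 20) +
        (Real.log T - Real.log 4) * -(637 / 100))) := (Real.exp_add _ _).symm
    _ ≤ _ := by
        apply Real.exp_le_exp.mpr
        nlinarith

theorem prime_sum (ε : ℝ) (hε : 0 < ε) :
    ∃ T₀ : ℝ, 4 ≤ T₀ ∧ ∀ T : ℝ, T₀ ≤ T → ∀ x N : ℕ, N ^ 100 ≤ x → Real.log x ≤ T →
      ∀ g : ℕ → ℝ, Sieve x g → ∀ E : Finset ℕ,
      (∀ m ∈ E, 1 ≤ m ∧ m ≤ N ∧ ∃ q : ℕ, q.Prime ∧ q ∣ m ∧ (T / 4) ^ 13 ≤ (q : ℝ)) →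
      (∀ m ∈ E, ε * Nat.primeCounting x ≤ |g m|) →
      (E.card : ℝ) ≤ N * T ^ (-(5 / 4) : ℝ) := by
  classical
  obtain ⟨T₁, hT₁, hps⟩ := prime_scale ε hε
  refine ⟨max T₁ ((4 : ℝ) ^ 120), ?_, ?_⟩
  · exact le_trans (by norm_num) (le_max_right _ _)
  intro T hT x N hNx hxT g hg E hE hbad
  have hTT₁ : T₁ ≤ T := (le_max_left _ _).trans hT
  have hT4 : (4 : ℝ) ^ 120 ≤ T := (le_max_right _ _).trans hT
  have hT16 : (64 : ℝ) ≤ T := le_trans (by norm_num) hT4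
  have hT0 : 0 < T := by linarith
  obtain ⟨Q, hQ⟩ : ∃ Q : ℝ, Q = (T / 4) ^ 13 := ⟨_, rfl⟩
  rw [← hQ] at hE
  have hQ0 : 0 < Q := by rw [hQ]; positivity
  have hTQ : T ≤ Q := by
    have h1 : (1 : ℝ) ≤ T / 4 := by linarith
    have h2 : (T / 4) ^ 2 ≤ (T / 4) ^ 13 := pow_le_pow_right₀ h1 (by norm_num)
    rw [hQ]
    nlinarith
  set S : ℕ := ⌊(N : ℝ) / Q⌋₊ with hS
  obtain ⟨Es, hEs⟩ : ∃ Es : ℕ → Finset ℕ, ∀ s, Es s = (Finset.range (N / s + 1)).filter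
      (fun q : ℕ => q.Prime ∧ Q ≤ (q : ℝ) ∧ s * q ∈ E) := ⟨fun s => _, fun s => rfl⟩
  have hcover : E ⊆ (Finset.Icc 1 S).biUnion (fun s => (Es s).image (fun q => s * q)) := by
    intro m hm
    obtain ⟨hm1, hmN, q, hq, ⟨s, hs⟩, hQq⟩ := hE m hm
    have hs1 : 1 ≤ s := by
      rcases Nat.eq_zero_or_pos s with h | h
      · subst h; omega
      · exact h
    rw [Finset.mem_biUnion]
    refine ⟨s, ?_, ?_⟩
    · rw [Finset.mem_Icc]
      refine ⟨hs1, ?_⟩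
      apply Nat.le_floor
      rw [le_div_iff₀ hQ0]
      have h1 : (s : ℝ) * Q ≤ s * q := mul_le_mul_of_nonneg_left hQq (Nat.cast_nonneg s)
      have h2 : (s : ℝ) * q = m := by rw [hs]; push_cast; ring
      have h3 : (m : ℝ) ≤ N := by exact_mod_cast hmN
      linarith
    · rw [Finset.mem_image]
      refine ⟨q, ?_, by rw [hs, mul_comm]⟩
      rw [hEs, Finset.mem_filter, Finset.mem_range]
      refine ⟨?_, hq, hQq, by rw [mul_comm, ← hs]; exact hm⟩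
      have h1 : q ≤ N / s := by
        rw [Nat.le_div_iff_mul_le (by omega), ← hs]
        exact hmN
      omega
  have hcard : (E.card : ℝ) ≤ ∑ s ∈ Finset.Icc 1 S, ((Es s).card : ℝ) := by
    have h1 := (Finset.card_le_card hcover).trans Finset.card_biUnion_le
    have h2 : ∑ s ∈ Finset.Icc 1 S, ((Es s).image (fun q => s * q)).card ≤
        ∑ s ∈ Finset.Icc 1 S, (Es s).card := Finset.sum_le_sum fun s _ => Finset.card_image_le
    exact_mod_cast h1.trans h2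
  have hone : ∀ s ∈ Finset.Icc 1 S, ((Es s).card : ℝ) ≤
      ((N : ℝ) ^ (51 / 100 : ℝ) * T ^ (101 / 20 : ℝ)) * (s : ℝ) ^ (-(51 / 100) : ℝ) := by
    intro s hs
    rw [Finset.mem_Icc] at hs
    have hs0 : (0 : ℝ) < s := by exact_mod_cast (by omega : 0 < s)
    rcases (Es s).eq_empty_or_nonempty with h | ⟨q0, hq0⟩
    · rw [h, Finset.card_empty, Nat.cast_zero]
      positivity
    have hmem : ∀ q ∈ Es s, q.Prime ∧ q ≤ N / s ∧ Q ≤ (q : ℝ) ∧ s * q ∈ E := by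
      intro q hq
      rw [hEs, Finset.mem_filter, Finset.mem_range] at hq
      exact ⟨hq.2.1, by omega, hq.2.2.1, hq.2.2.2⟩
    obtain ⟨_, h2, h3, _⟩ := hmem q0 hq0
    have hTM : T ≤ ((N / s : ℕ) : ℝ) := by
      have h5 : (q0 : ℝ) ≤ ((N / s : ℕ) : ℝ) := by exact_mod_cast h2
      linarith
    have h6 := hps T hTT₁ x (N / s) hTM
      ((Nat.pow_le_pow_left (Nat.div_le_self N s) 100).trans hNx) hxT g hg s (Es s)
      (fun q hq => ⟨(hmem q hq).1, (hmem q hq).2.1⟩) (fun q hq => hbad _ (hmem q hq).2.2.2)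
    refine h6.trans ?_
    have h7 : ((N / s : ℕ) : ℝ) ≤ (N : ℝ) / s := Nat.cast_div_le
    have h8 : ((N / s : ℕ) : ℝ) ^ (51 / 100 : ℝ) ≤ ((N : ℝ) / s) ^ (51 / 100 : ℝ) :=
      Real.rpow_le_rpow (Nat.cast_nonneg _) h7 (by norm_num)
    have h9 : ((N : ℝ) / s) ^ (51 / 100 : ℝ) =
        (N : ℝ) ^ (51 / 100 : ℝ) * (s : ℝ) ^ (-(51 / 100) : ℝ) := by
      rw [Real.div_rpow (Nat.cast_nonneg _) hs0.le, Real.rpow_neg hs0.le, div_eq_mul_inv]
    calc ((N / s : ℕ) : ℝ) ^ (51 / 100 : ℝ) * T ^ (101 / 20 : ℝ)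
        ≤ ((N : ℝ) ^ (51 / 100 : ℝ) * (s : ℝ) ^ (-(51 / 100) : ℝ)) * T ^ (101 / 20 : ℝ) := by
          rw [← h9]
          exact mul_le_mul_of_nonneg_right h8 (by positivity)
      _ = _ := by ring
  rcases Nat.eq_zero_or_pos N with hN | hN
  · have h1 : E = ∅ := by
      rw [Finset.eq_empty_iff_forall_notMem]
      intro m hm
      have h2 := hE m hm
      omega
    rw [h1, Finset.card_empty, Nat.cast_zero]
    positivity
  have hN0 : (0 : ℝ) < N := by exact_mod_cast hN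
  have hSN : (S : ℝ) ≤ (N : ℝ) / Q := Nat.floor_le (by positivity)
  calc (E.card : ℝ) ≤ ∑ s ∈ Finset.Icc 1 S, ((Es s).card : ℝ) := hcard
    _ ≤ ∑ s ∈ Finset.Icc 1 S,
        ((N : ℝ) ^ (51 / 100 : ℝ) * T ^ (101 / 20 : ℝ)) * (s : ℝ) ^ (-(51 / 100) : ℝ) :=
        Finset.sum_le_sum hone
    _ = ((N : ℝ) ^ (51 / 100 : ℝ) * T ^ (101 / 20 : ℝ)) *
        ∑ s ∈ Finset.Icc 1 S, (s : ℝ) ^ (-(51 / 100) : ℝ) := (Finset.mul_sum _ _ _).symm
    _ ≤ ((N : ℝ) ^ (51 / 100 : ℝ) * T ^ (101 / 20 : ℝ)) *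
        (100 / 49 * (S : ℝ) ^ (49 / 100 : ℝ)) :=
        mul_le_mul_of_nonneg_left (sum_rpow S) (by positivity)
    _ ≤ ((N : ℝ) ^ (51 / 100 : ℝ) * T ^ (101 / 20 : ℝ)) *
        (100 / 49 * ((N : ℝ) / Q) ^ (49 / 100 : ℝ)) := by
        apply mul_le_mul_of_nonneg_left _ (by positivity)
        apply mul_le_mul_of_nonneg_left _ (by norm_num)
        exact Real.rpow_le_rpow (Nat.cast_nonneg _) hSN (by norm_num)
    _ = N * (100 / 49 * (T ^ (101 / 20 : ℝ) * (T / 4) ^ (-(637 / 100) : ℝ))) := by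
        have h1 : Q ^ (49 / 100 : ℝ) = ((T / 4) ^ (-(637 / 100) : ℝ))⁻¹ := by
          rw [hQ, ← Real.rpow_natCast, ← Real.rpow_mul (by positivity), ← Real.rpow_neg (by positivity)]
          congr 1
          norm_num
        have h2 : (N : ℝ) ^ (51 / 100 : ℝ) * (N : ℝ) ^ (49 / 100 : ℝ) = N := by
          rw [← Real.rpow_add hN0]
          norm_num
        rw [Real.div_rpow hN0.le hQ0.le, h1, div_inv_eq_mul]
        calc (N : ℝ) ^ (51 / 100 : ℝ) * T ^ (101 / 20 : ℝ) *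
              (100 / 49 * ((N : ℝ) ^ (49 / 100 : ℝ) * (T / 4) ^ (-(637 / 100) : ℝ)))
            = ((N : ℝ) ^ (51 / 100 : ℝ) * (N : ℝ) ^ (49 / 100 : ℝ)) *
              (100 / 49 * (T ^ (101 / 20 : ℝ) * (T / 4) ^ (-(637 / 100) : ℝ))) := by ring
          _ = _ := by rw [h2]
    _ ≤ N * T ^ (-(5 / 4) : ℝ) := mul_le_mul_of_nonneg_left (psu_final hT4) hN0.le

end Pool.Agent.ARP
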