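import Pool.Agent.ARS.Cn2
import Pool.Agent.ARS.Cnb
import Pool.Agent.ARP.Psu

set_option autoImplicit false

/-!
# ARP module CNP: all scales `x ≤ exp T`, integers with a prime factor `≥ (T / 2) ^ 13`

Structure as in `Pool.Agent.ARV.count_u`: at most `(2 / log lam + 1) T` scales, each with at most
`N (2 T) ^ (- 5 / 4)` bad integers (`prime_sum` with `2 T` for `T`).
-/

namespace Pool.Agent.ARP

open Filter Topology Pool.Agent.ARS Pool.Agent.Helper8.ArtinLS Pool.Agent.Helper6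

theorem count_p {P Dv f : ℕ → ℕ → ℝ} {Em : ℕ → ℝ} {C δ₀ : ℝ} (F : Fam P Dv f Em C δ₀)
    (ε : ℝ) (hε : 0 < ε) :
    ∃ T₁ : ℝ, 4 ≤ T₁ ∧ ∃ N₁ : ℕ, 2 ≤ N₁ ∧ ∃ C₅ : ℝ, 0 < C₅ ∧ ∀ N : ℕ, N₁ ≤ N →
      ∀ T : ℝ, T₁ ≤ T → ∀ E : Finset ℕ, (∀ m ∈ E, 1 ≤ m ∧ m ≤ N) →
      (∀ m ∈ E, ∃ q : ℕ, q.Prime ∧ q ∣ m ∧ (T / 2) ^ 13 ≤ (q : ℝ) ∧
        ∃ x : ℕ, N ^ 101 ≤ x ∧ (x : ℝ) ≤ Real.exp T ∧
        ε < |P m x / Nat.primeCounting x - δ₀|) →
      (E.card : ℝ) ≤ C₅ * N * T ^ (-(1 / 4) : ℝ) := by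
  classical
  obtain ⟨lam, hlam, ε', hε', L₀, hL₀, hcov⟩ := scale_cover δ₀ F.d0 F.d2 ε hε
  obtain ⟨T₂, hT₂4, hps⟩ := prime_sum (ε' / 4) (by positivity)
  obtain ⟨X₂, hX₂⟩ := eventually_atTop.mp ((fam_close F (ε' / 2) (by positivity)).and
    (fam_log F (ε' / 4) (by positivity)))
  have hlam0 : 0 < lam := by linarith
  have hll : 0 < Real.log lam := Real.log_pos hlam
  refine ⟨max T₂ (Real.log lam), hT₂4.trans (le_max_left _ _),
    max (max ⌈L₀⌉₊ ⌈2 * lam⌉₊) (max X₂ 2), (le_max_right _ _).trans (le_max_right _ _),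
    2 / Real.log lam + 1, by positivity, ?_⟩
  intro N hN T hT E hE hbad
  have hTT₂ : T₂ ≤ T := (le_max_left _ _).trans hT
  have hTlam : Real.log lam ≤ T := (le_max_right _ _).trans hT
  have hT4 : 4 ≤ T := hT₂4.trans hTT₂
  have hT0 : 0 < T := by linarith
  have hN2 : 2 ≤ N := ((le_max_right _ _).trans (le_max_right _ _)).trans hN
  have hNL : L₀ ≤ N := by
    have h1 : ⌈L₀⌉₊ ≤ N := ((le_max_left _ _).trans (le_max_left _ _)).trans hN
    exact (Nat.le_ceil _).trans (by exact_mod_cast h1)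
  have hNlam : 2 * lam ≤ N := by
    have h1 : ⌈2 * lam⌉₊ ≤ N := ((le_max_right _ _).trans (le_max_left _ _)).trans hN
    exact (Nat.le_ceil _).trans (by exact_mod_cast h1)
  have hNX₂ : X₂ ≤ N := ((le_max_left _ _).trans (le_max_right _ _)).trans hN
  have hNr : (1 : ℝ) ≤ N := by exact_mod_cast (by omega : 1 ≤ N)
  have hNpos : (0 : ℝ) < N := by linarith
  set hi : ℝ := Real.exp T with hhi
  set lo : ℝ := (N : ℝ) ^ 101 with hlo
  have hloL : L₀ ≤ lo := hNL.trans (le_self_pow₀ hNr (by norm_num))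
  have hNK : (1 : ℝ) ≤ (N : ℝ) ^ 100 := one_le_pow₀ hNr
  have hNNK : N ≤ N ^ 100 := Nat.le_self_pow (by norm_num) N
  have hlolam : (N : ℝ) ^ 100 + 1 ≤ lo / lam := by
    rw [le_div_iff₀ hlam0, hlo, pow_succ _ 100]
    have h1 : ((N : ℝ) ^ 100 + 1) * lam ≤ 2 * (N : ℝ) ^ 100 * lam :=
      mul_le_mul_of_nonneg_right (by linarith) hlam0.le
    have h2 : 2 * (N : ℝ) ^ 100 * lam = (N : ℝ) ^ 100 * (2 * lam) := by ring
    have h3 : (N : ℝ) ^ 100 * (2 * lam) ≤ (N : ℝ) ^ 100 * N :=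
      mul_le_mul_of_nonneg_left hNlam (by linarith)
    linarith
  have hloglam : Real.log lam + T ≤ 2 * T := by linarith
  set J : ℕ := ⌊2 * T / Real.log lam⌋₊ with hJ
  set S : Finset ℕ := (Finset.range (J + 1)).filter
    (fun j => lo / lam ≤ lam ^ j ∧ lam ^ j ≤ lam * hi) with hS
  obtain ⟨Fs, hFs⟩ : ∃ Fs : ℕ → Finset ℕ, ∀ j, Fs j = E.filter (fun m => ε' <
    |P m (scl lam j) / Nat.primeCounting (scl lam j) - δ₀|) := ⟨fun j => _, fun j => rfl⟩
  have hcover : E ⊆ S.biUnion Fs := by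
    intro m hm
    obtain ⟨_, _, _, _, x, hx1, hx2, hx3⟩ := hbad m hm
    obtain ⟨j, hj1, hj2, hj3⟩ := hcov (P m) (F.mono m) (F.nonneg m) lo hi hloL x
      (by rw [hlo]; exact_mod_cast hx1) hx2 hx3
    rw [Finset.mem_biUnion]
    refine ⟨j, ?_, ?_⟩
    · rw [hS, Finset.mem_filter, Finset.mem_range]
      refine ⟨?_, hj1, hj2⟩
      have h2 := Real.log_le_log (by positivity) hj2
      rw [Real.log_pow, Real.log_mul hlam0.ne' (Real.exp_pos _).ne', Real.log_exp] at h2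
      have h3 : (j : ℝ) ≤ 2 * T / Real.log lam := by
        rw [le_div_iff₀ hll]
        linarith
      have h4 : j ≤ ⌊2 * T / Real.log lam⌋₊ := Nat.le_floor h3
      omega
    · rw [hFs, Finset.mem_filter]
      exact ⟨hm, hj3⟩
  have hFj : ∀ j ∈ S, ((Fs j).card : ℝ) ≤ N * T ^ (-(5 / 4) : ℝ) := by
    intro j hj
    rw [hS, Finset.mem_filter] at hj
    obtain ⟨_, hj1, hj2⟩ := hj
    set x : ℕ := scl lam j with hx
    have hxle : (x : ℝ) ≤ lam ^ j := by
      rw [hx]; unfold scl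
      exact Nat.floor_le (by positivity)
    have hxge : N ^ 100 ≤ x := by
      have h1 : lam ^ j < (x : ℝ) + 1 := by
        rw [hx]; unfold scl; exact Nat.lt_floor_add_one _
      have h2 : (N : ℝ) ^ 100 ≤ x := by linarith
      exact_mod_cast h2
    have hxN : N ≤ x := hNNK.trans hxge
    have hxX₂ : X₂ ≤ x := hNX₂.trans hxN
    have hx2 : 2 ≤ x := hN2.trans hxN
    have hpi := primeCounting_pos hx2
    have hx0 : (0 : ℝ) < x := by exact_mod_cast (by omega : 0 < x)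
    have hlogx : Real.log x ≤ 2 * T := by
      calc Real.log x ≤ Real.log (lam * hi) := Real.log_le_log hx0 (hxle.trans hj2)
        _ = Real.log lam + T := by
            rw [Real.log_mul hlam0.ne' (Real.exp_pos _).ne', Real.log_exp]
        _ ≤ 2 * T := hloglam
    have h1 := hps (2 * T) (by linarith) x N hxge hlogx
      (fun m => Dv m x) (F.sieve x (by omega)) (Fs j) (fun m hm => by
        rw [hFs] at hm
        have h1 := Finset.mem_filter.mp hm
        obtain ⟨q, hq1, hq2, hq3, _⟩ := hbad m h1.1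
        refine ⟨(hE m h1.1).1, (hE m h1.1).2, q, hq1, hq2, ?_⟩
        have h5 : 2 * T / 4 = T / 2 := by ring
        rw [h5]
        exact hq3) (fun m hm => by
        rw [hFs] at hm
        have h1 := Finset.mem_filter.mp hm
        exact fam_dev F (hE m h1.1).1 (by omega) (by exact_mod_cast (hE m h1.1).2.trans hxN)
          (hX₂ x hxX₂).2 (unnormalise hpi h1.2 (hX₂ x hxX₂).1))
    refine h1.trans ?_
    apply mul_le_mul_of_nonneg_left _ hNpos.le
    exact Real.rpow_le_rpow_of_nonpos hT0 (by linarith) (by norm_num)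
  have hScard : (S.card : ℝ) ≤ (2 / Real.log lam + 1) * T := by
    have h1 : S.card ≤ J + 1 := (Finset.card_filter_le _ _).trans (by simp)
    have h2 : ((J : ℕ) : ℝ) ≤ 2 * T / Real.log lam := Nat.floor_le (by positivity)
    have h8 : (S.card : ℝ) ≤ (J : ℝ) + 1 := by exact_mod_cast h1
    have h9 : (2 / Real.log lam + 1) * T = 2 * T / Real.log lam + T := by ring
    linarith
  have hpow : T * T ^ (-(5 / 4) : ℝ) = T ^ (-(1 / 4) : ℝ) := by
    rw [← Real.rpow_one_add' hT0.le (by norm_num)]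
    norm_num
  calc (E.card : ℝ) ≤ ((S.biUnion Fs).card : ℝ) := by
        exact_mod_cast Finset.card_le_card hcover
    _ ≤ ((∑ j ∈ S, (Fs j).card : ℕ) : ℝ) := by
        exact_mod_cast Finset.card_biUnion_le
    _ = ∑ j ∈ S, ((Fs j).card : ℝ) := by push_cast; rfl
    _ ≤ ∑ j ∈ S, (N : ℝ) * T ^ (-(5 / 4) : ℝ) := Finset.sum_le_sum hFj
    _ = S.card * (N * T ^ (-(5 / 4) : ℝ)) := by
        rw [Finset.sum_const, nsmul_eq_mul]
    _ ≤ ((2 / Real.log lam + 1) * T) * (N * T ^ (-(5 / 4) : ℝ)) :=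
        mul_le_mul_of_nonneg_right hScard (by positivity)
    _ = (2 / Real.log lam + 1) * N * (T * T ^ (-(5 / 4) : ℝ)) := by ring
    _ = _ := by rw [hpow]

end Pool.Agent.ARP
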