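import Pool.Agent.ARV.Defs

set_option autoImplicit false

/-!
# ARP: definitions

`SS N = sqrt (log N log log N)`; the threshold between the two regimes is `T = exp (SS N)`.
-/

namespace Pool.Agent.ARP

/-- `sqrt (log N log log N)` -/
noncomputable def SS (N : ℕ) : ℝ := Real.sqrt (Real.log N * Real.log (Real.log N))

end Pool.Agent.ARP
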