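import Pool.Agent.ARP.Cnp

set_option autoImplicit false

/-!
# ARP module TLS: all scales beyond `exp T₀`, dyadic sum

`x > exp T₀`, `x ≤ exp (q ^ (1 / 13))`.  With `2 ^ j T₀ ≤ log x < 2 ^ (j + 1) T₀` and
`T = 2 ^ (j + 1) T₀` one has `q ≥ (T / 2) ^ 13`, `j < N`; `count_p` and a geometric series.
-/

namespace Pool.Agent.ARP

open Filter Topology Pool.Agent.ARS Pool.Agent.Helper8.ArtinLS Pool.Agent.Helper6

lemma geo_le {r : ℝ} (h0 : 0 ≤ r) (h1 : r < 1) (n : ℕ) :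
    ∑ i ∈ Finset.range n, r ^ (i + 1) ≤ 1 / (1 - r) := by
  rw [le_div_iff₀ (by linarith)]
  have h2 : (1 - r) * ∑ i ∈ Finset.range n, r ^ i = 1 - r ^ n := mul_neg_geom_sum r n
  have h3 : ∑ i ∈ Finset.range n, r ^ (i + 1) = r * ∑ i ∈ Finset.range n, r ^ i := by
    rw [Finset.mul_sum]
    exact Finset.sum_congr rfl fun i _ => by rw [pow_succ]; ring
  rw [h3, mul_assoc, mul_comm _ (1 - r), h2]
  have h4 : 0 ≤ r ^ n := pow_nonneg h0 n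
  have h5 : r * (1 - r ^ n) ≤ r * 1 := mul_le_mul_of_nonneg_left (by linarith) h0
  linarith

theorem tail_sum {P Dv f : ℕ → ℕ → ℝ} {Em : ℕ → ℝ} {C δ₀ : ℝ} (F : Fam P Dv f Em C δ₀)
    (ε : ℝ) (hε : 0 < ε) :
    ∃ T₁ : ℝ, 4 ≤ T₁ ∧ ∃ N₁ : ℕ, 2 ≤ N₁ ∧ ∃ C₆ : ℝ, 0 < C₆ ∧ ∀ N : ℕ, N₁ ≤ N →
      ∀ T₀ : ℝ, T₁ ≤ T₀ → 101 * Real.log N ≤ T₀ → ∀ E : Finset ℕ, (∀ m ∈ E, 1 ≤ m ∧ m ≤ N) →
      (∀ m ∈ E, ∃ q : ℕ, q.Prime ∧ q ∣ m ∧
        ∃ x : ℕ, Real.exp T₀ < x ∧ (x : ℝ) ≤ Real.exp ((q : ℝ) ^ (1 / 13 : ℝ)) ∧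
        ε < |P m x / Nat.primeCounting x - δ₀|) →
      (E.card : ℝ) ≤ C₆ * N * T₀ ^ (-(1 / 4) : ℝ) := by
  classical
  obtain ⟨T₁, hT₁, N₁, hN₁, C₅, hC₅, h⟩ := count_p F ε hε
  obtain ⟨r, hr⟩ : ∃ r : ℝ, r = (2 : ℝ) ^ (-(1 / 4) : ℝ) := ⟨_, rfl⟩
  have hr0 : 0 < r := by rw [hr]; positivity
  have hr1 : r < 1 := by
    rw [hr]
    exact Real.rpow_lt_one_of_one_lt_of_neg (by norm_num) (by norm_num)
  refine ⟨T₁, hT₁, N₁, hN₁, C₅ * (1 / (1 - r)), ?_, ?_⟩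
  · have : 0 < 1 - r := by linarith
    positivity
  intro N hN T₀ hT₀ hlog E hE hbad
  have hT4 : 4 ≤ T₀ := hT₁.trans hT₀
  have hT0 : 0 < T₀ := by linarith
  have hN0 : (0 : ℝ) < N := by exact_mod_cast (by omega : 0 < N)
  obtain ⟨Es, hEs⟩ : ∃ Es : ℕ → Finset ℕ, ∀ j, Es j = E.filter (fun m => ∃ q : ℕ, q.Prime ∧ q ∣ m ∧
      (2 ^ (j + 1) * T₀ / 2) ^ 13 ≤ (q : ℝ) ∧
        ∃ x : ℕ, N ^ 101 ≤ x ∧ (x : ℝ) ≤ Real.exp (2 ^ (j + 1) * T₀) ∧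
        ε < |P m x / Nat.primeCounting x - δ₀|) := ⟨fun j => _, fun j => rfl⟩
  have hcover : E ⊆ (Finset.range N).biUnion Es := by
    intro m hm
    obtain ⟨q, hq1, hq2, x, hx1, hx2, hx3⟩ := hbad m hm
    have hx0 : (0 : ℝ) < x := lt_trans (Real.exp_pos _) hx1
    have hlx : T₀ < Real.log x := by
      rw [Real.lt_log_iff_exp_lt hx0]; exact hx1
    have hy : 1 ≤ Real.log x / T₀ := by
      rw [le_div_iff₀ hT0]; linarith
    obtain ⟨j, hj1, hj2⟩ := exists_nat_pow_near hy (by norm_num : (1 : ℝ) < 2)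
    rw [le_div_iff₀ hT0] at hj1
    rw [div_lt_iff₀ hT0] at hj2
    have hlq : Real.log x ≤ (q : ℝ) ^ (1 / 13 : ℝ) := by
      rw [Real.log_le_iff_le_exp hx0]; exact hx2
    have hq13 : (2 ^ j * T₀) ^ 13 ≤ (q : ℝ) := by
      have h1 : (2 ^ j * T₀) ^ 13 ≤ ((q : ℝ) ^ (1 / 13 : ℝ)) ^ 13 :=
        pow_le_pow_left₀ (by positivity) (hj1.trans hlq) 13
      rw [← Real.rpow_natCast, ← Real.rpow_natCast ((q : ℝ) ^ (1 / 13 : ℝ)),
        ← Real.rpow_mul (Nat.cast_nonneg q)] at h1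
      norm_num at h1
      exact h1
    have h2j : 1 ≤ (2 : ℝ) ^ j := one_le_pow₀ (by norm_num)
    rw [Finset.mem_biUnion]
    refine ⟨j, ?_, ?_⟩
    · rw [Finset.mem_range]
      have h1 : (2 : ℝ) ^ j ≤ 2 ^ j * T₀ := le_mul_of_one_le_right (by positivity) (by linarith)
      have h2 : 2 ^ j * T₀ ≤ (2 ^ j * T₀) ^ 13 := le_self_pow₀ (by nlinarith) (by norm_num)
      have h3 : q ≤ N := (Nat.le_of_dvd (by have := hE m hm; omega) hq2).trans (hE m hm).2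
      have h4 : (q : ℝ) ≤ N := by exact_mod_cast h3
      have h5 : (2 : ℝ) ^ j ≤ N := by linarith
      have h6 : 2 ^ j ≤ N := by exact_mod_cast h5
      exact lt_of_lt_of_le Nat.lt_two_pow_self h6
    · rw [hEs, Finset.mem_filter]
      refine ⟨hm, q, hq1, hq2, ?_, x, ?_, ?_, hx3⟩
      · have h1 : 2 ^ (j + 1) * T₀ / 2 = 2 ^ j * T₀ := by rw [pow_succ]; ring
        rw [h1]
        exact hq13
      · have h1 : Real.log ((N : ℝ) ^ 101) ≤ Real.log x := by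
          rw [Real.log_pow]
          push_cast
          linarith
        have h2 := (Real.log_le_log_iff (by positivity) hx0).mp h1
        exact_mod_cast h2
      · rw [← Real.log_le_iff_le_exp hx0]
        exact hj2.le
  have hEj : ∀ j ∈ Finset.range N, ((Es j).card : ℝ) ≤
      (C₅ * N * T₀ ^ (-(1 / 4) : ℝ)) * r ^ (j + 1) := by
    intro j _
    have h2j : 1 ≤ (2 : ℝ) ^ (j + 1) := one_le_pow₀ (by norm_num)
    have h1 := h N hN (2 ^ (j + 1) * T₀) (hT₀.trans (le_mul_of_one_le_left hT0.le h2j)) (Es j)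
      (fun m hm => by
        rw [hEs, Finset.mem_filter] at hm
        exact hE m hm.1) (fun m hm => by
        rw [hEs, Finset.mem_filter] at hm
        exact hm.2)
    refine h1.trans (le_of_eq ?_)
    rw [Real.mul_rpow (by positivity) hT0.le, hr]
    have h3 : ((2 : ℝ) ^ (j + 1)) ^ (-(1 / 4) : ℝ) = ((2 : ℝ) ^ (-(1 / 4) : ℝ)) ^ (j + 1) := by
      rw [← Real.rpow_natCast, ← Real.rpow_natCast, ← Real.rpow_mul (by norm_num),
        ← Real.rpow_mul (by norm_num), mul_comm]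
    rw [h3]
    ring
  calc (E.card : ℝ) ≤ (((Finset.range N).biUnion Es).card : ℝ) := by
        exact_mod_cast Finset.card_le_card hcover
    _ ≤ ((∑ j ∈ Finset.range N, (Es j).card : ℕ) : ℝ) := by
        exact_mod_cast Finset.card_biUnion_le
    _ = ∑ j ∈ Finset.range N, ((Es j).card : ℝ) := by push_cast; rfl
    _ ≤ ∑ j ∈ Finset.range N, (C₅ * N * T₀ ^ (-(1 / 4) : ℝ)) * r ^ (j + 1) :=
        Finset.sum_le_sum hEj
    _ = (C₅ * N * T₀ ^ (-(1 / 4) : ℝ)) * ∑ j ∈ Finset.range N, r ^ (j + 1) :=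
        (Finset.mul_sum _ _ _).symm
    _ ≤ (C₅ * N * T₀ ^ (-(1 / 4) : ℝ)) * (1 / (1 - r)) :=
        mul_le_mul_of_nonneg_left (geo_le hr0.le hr1 N) (by positivity)
    _ = _ := by ring

end Pool.Agent.ARP
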