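import Pool.Agent.ARP.Defs

set_option autoImplicit false

/-!
# ARP module VSM: the calculus at the threshold

`L = log N`, `S = SS N`, `u = L / S`, `u log L = S`, `log u = (log L - log log L) / 2`, so
`u log u = (S / 2) (1 - log log L / log L) >= (9 / 20) S` for large `N`, and
`(1 / 2 - 1 / 20) (9 / 20) = 81 / 400 >= 1 / 5`.
-/

namespace Pool.Agent.ARP

open Filter Topology Pool.Agent.ARV

private theorem vsm_log : ∀ᶠ x : ℝ in atTop, Real.log x ≤ x / 10 := by
  have h1 := Real.isLittleO_log_id_atTop.bound (by norm_num : (0 : ℝ) < 1 / 10)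
  filter_upwards [h1, eventually_ge_atTop (0 : ℝ)] with x h2 h3
  have h4 : Real.log x ≤ ‖Real.log x‖ := Real.le_norm_self _
  have h5 : ‖id x‖ = x := by rw [id, Real.norm_of_nonneg h3]
  rw [h5] at h2
  linarith

private theorem vsm_facts (B : ℝ) : ∀ᶠ N : ℕ in atTop, 1 ≤ Real.log (Real.log N) ∧
    1 ≤ Real.log N ∧ B ≤ Real.log N ∧
    Real.log (Real.log (Real.log N)) ≤ Real.log (Real.log N) / 10 ∧
    Real.log (Real.log N) ≤ Real.log N / 10 := by
  have h1 : Tendsto (fun N : ℕ => Real.log (N : ℝ)) atTop atTop :=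
    Real.tendsto_log_atTop.comp tendsto_natCast_atTop_atTop
  have h2 : Tendsto (fun N : ℕ => Real.log (Real.log (N : ℝ))) atTop atTop :=
    Real.tendsto_log_atTop.comp h1
  filter_upwards [h2.eventually (eventually_ge_atTop 1), h1.eventually (eventually_ge_atTop 1),
    h1.eventually (eventually_ge_atTop B), h2.eventually vsm_log, h1.eventually vsm_log]
    with N a b c d e
  exact ⟨a, b, c, d, e⟩

theorem vv_small : ∃ N₀ : ℕ, ∀ N : ℕ, N₀ ≤ N →
    vv (1 / 20) N (Real.exp (SS N)) ≤ Real.exp (-(SS N / 5)) := by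
  obtain ⟨N₀, h⟩ := eventually_atTop.1 (vsm_facts 0)
  refine ⟨N₀, fun N hN => ?_⟩
  obtain ⟨h1, h2, -, h4, h5⟩ := h N hN
  set L := Real.log N with hL
  set LL := Real.log L with hLL
  have hL0 : 0 < L := by linarith
  have hLL0 : 0 < LL := by linarith
  have hS0 : 0 < SS N := by
    rw [SS]
    exact Real.sqrt_pos.2 (mul_pos hL0 hLL0)
  have hSS : SS N * SS N = L * LL := by
    rw [SS]
    exact Real.mul_self_sqrt (mul_pos hL0 hLL0).le
  set S := SS N with hS
  have hu0 : 0 < L / S := div_pos hL0 hS0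
  have hlogS : 2 * Real.log S = LL + Real.log LL := by
    have h6 := congrArg Real.log hSS
    rw [Real.log_mul hS0.ne' hS0.ne', Real.log_mul hL0.ne' hLL0.ne'] at h6
    linarith
  have hlogu : Real.log (L / S) = (LL - Real.log LL) / 2 := by
    rw [Real.log_div hL0.ne' hS0.ne']
    linarith
  have huLL : L / S * LL = S := by
    rw [div_mul_eq_mul_div, ← hSS, mul_div_assoc, div_self hS0.ne', mul_one]
  have hmain : 9 / 20 * S ≤ L / S * Real.log (L / S) := by
    rw [hlogu]
    have h6 : 9 / 20 * LL ≤ (LL - Real.log LL) / 2 := by linarith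
    calc 9 / 20 * S = 9 / 20 * (L / S * LL) := by rw [huLL]
      _ = L / S * (9 / 20 * LL) := by ring
      _ ≤ _ := mul_le_mul_of_nonneg_left h6 hu0.le
  rw [vv, Real.log_exp, Real.rpow_def_of_pos hu0]
  apply Real.exp_le_exp.2
  have h7 : Real.log (L / S) * -((1 / 2 - 1 / 20) * (L / S)) =
      -(9 / 20 * (L / S * Real.log (L / S))) := by ring
  rw [h7]
  nlinarith

theorem ss_large (B : ℝ) : ∃ N₀ : ℕ, ∀ N : ℕ, N₀ ≤ N →
    B ≤ Real.exp (SS N) ∧ B * Real.log N ≤ Real.exp (SS N) := by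
  obtain ⟨N₀, h⟩ := eventually_atTop.1 (vsm_facts B)
  refine ⟨N₀, fun N hN => ?_⟩
  obtain ⟨h1, h2, h3, h4, h5⟩ := h N hN
  set L := Real.log N with hL
  set LL := Real.log L with hLL
  have hL0 : 0 < L := by linarith
  have hLL0 : 0 < LL := by linarith
  have hS2 : 2 * LL ≤ SS N := by
    rw [SS]
    apply Real.le_sqrt_of_sq_le
    nlinarith
  have h6 : L ^ 2 ≤ Real.exp (SS N) := by
    refine le_trans ?_ (Real.exp_le_exp.2 hS2)
    have h7 : Real.exp (2 * LL) = L ^ 2 := by
      rw [two_mul, Real.exp_add, hLL, Real.exp_log hL0, sq]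
    exact h7.ge
  constructor
  · nlinarith
  · nlinarith

end Pool.Agent.ARP
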