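import Pool.Agent.ARV.Fin
import Pool.Agent.ARP.Tls
import Pool.Agent.ARP.Vsm

set_option autoImplicit false

/-!
# ARP: the range up to `exp (q ^ (1 / 13))`, `q` the largest prime factor
-/

namespace Pool.Agent.ARP

open Filter Topology Pool.Agent.Helper8.ArtinLS Pool.Agent.Helper8.ArtinC Pool.Agent.Helper6
  Pool.Agent.ARX Pool.Agent.ARS Pool.Agent.ARV

lemma SS_nonneg (N : ℕ) : 0 ≤ SS N := Real.sqrt_nonneg _

lemma SS_le_log (N : ℕ) : SS N ≤ Real.log N := by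
  have h0 : 0 ≤ Real.log N := Real.log_natCast_nonneg N
  have h1 : Real.log (Real.log N) ≤ Real.log N :=
    (Real.log_le_self h0)
  unfold SS
  rw [Real.sqrt_le_left h0, sq]
  exact mul_le_mul_of_nonneg_left h1 h0

/-- `N ^ c ≤ N exp (- S / 5)` for `c ≤ 4 / 5` -/
lemma pow_le_exp {N : ℕ} (hN : 1 ≤ N) {c : ℝ} (hc : c ≤ 4 / 5) :
    (N : ℝ) ^ c ≤ N * Real.exp (-(SS N / 5)) := by
  have hN0 : (0 : ℝ) < N := by exact_mod_cast hN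
  have h0 : 0 ≤ Real.log N := Real.log_natCast_nonneg N
  have h1 := SS_le_log N
  calc (N : ℝ) ^ c = Real.exp (Real.log N * c) := Real.rpow_def_of_pos hN0 c
    _ ≤ Real.exp (Real.log N + -(SS N / 5)) := by
        apply Real.exp_le_exp.mpr
        nlinarith
    _ = N * Real.exp (-(SS N / 5)) := by rw [Real.exp_add, Real.exp_log hN0]

/-- small `N` -/
lemma triv_small {N N₀ : ℕ} (h : N < N₀) :
    (2 : ℝ) * N ≤ 2 * N₀ * N * Real.exp (-(SS N / 5)) := by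
  rcases Nat.eq_zero_or_pos N with h0 | h0
  · rw [h0]; simp
  have h1 := pow_le_exp (N := N) h0 (c := 0) (by norm_num)
  rw [Real.rpow_zero] at h1
  have h2 : (N : ℝ) ≤ N₀ := by exact_mod_cast h.le
  have h3 : (0 : ℝ) ≤ N₀ := Nat.cast_nonneg _
  calc (2 : ℝ) * N ≤ 2 * N₀ * 1 := by linarith
    _ ≤ 2 * N₀ * (N * Real.exp (-(SS N / 5))) := mul_le_mul_of_nonneg_left h1 (by positivity)
    _ = _ := by ring

/-- the tail for both signs -/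
lemma tail_signed (ε : ℝ) (hε : 0 < ε) :
    ∃ T₁ : ℝ, 4 ≤ T₁ ∧ ∃ N₁ : ℕ, 2 ≤ N₁ ∧ ∃ C₆ : ℝ, 0 < C₆ ∧ ∀ N : ℕ, N₁ ≤ N →
      ∀ T₀ : ℝ, T₁ ≤ T₀ → 101 * Real.log N ≤ T₀ → ∀ a : ℤ, (a = 1 ∨ a = -1) →
      ∀ E : Finset ℕ, (∀ m ∈ E, 1 ≤ m ∧ m ≤ N) →
      (∀ m ∈ E, ∃ q : ℕ, q.Prime ∧ (q : ℤ) ∣ a * (m : ℤ) ∧
        ∃ x : ℕ, Real.exp T₀ < x ∧ (x : ℝ) ≤ Real.exp ((q : ℝ) ^ (1 / 13 : ℝ)) ∧
        ε < |artinP (a * (m : ℤ)) x / Nat.primeCounting x - CA|) →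
      (E.card : ℝ) ≤ C₆ * N * T₀ ^ (-(1 / 4) : ℝ) := by
  obtain ⟨_, F₁⟩ := fam_a 1 (Or.inl rfl)
  obtain ⟨_, F₂⟩ := fam_a (-1) (Or.inr rfl)
  obtain ⟨T₁, hT₁, N₁, hN₁, K₁, hK₁, h1⟩ := tail_sum F₁ ε hε
  obtain ⟨T₂, hT₂, N₂, hN₂, K₂, hK₂, h2⟩ := tail_sum F₂ ε hε
  refine ⟨max T₁ T₂, hT₁.trans (le_max_left _ _), max N₁ N₂, hN₁.trans (le_max_left _ _),
    max K₁ K₂, lt_of_lt_of_le hK₁ (le_max_left _ _), ?_⟩
  intro N hN T₀ hT₀ hlog a ha E hE hbad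
  have hT0 : 0 < T₀ := by
    have := (le_max_left T₁ T₂).trans hT₀
    linarith
  have hNv : 0 ≤ (N : ℝ) * T₀ ^ (-(1 / 4) : ℝ) := by positivity
  have hmono : ∀ K' : ℝ, K' ≤ max K₁ K₂ → K' * N * T₀ ^ (-(1 / 4) : ℝ) ≤
      max K₁ K₂ * N * T₀ ^ (-(1 / 4) : ℝ) := by
    intro K' h4
    rw [mul_assoc, mul_assoc]
    exact mul_le_mul_of_nonneg_right h4 hNv
  rcases ha with rfl | rfl
  · refine (h1 N ((le_max_left _ _).trans hN) T₀ ((le_max_left _ _).trans hT₀) hlog E hE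
      (fun m hm => ?_)).trans (hmono K₁ (le_max_left _ _))
    obtain ⟨q, hq, hqm, h⟩ := hbad m hm
    rw [one_mul, Int.natCast_dvd_natCast] at hqm
    exact ⟨q, hq, hqm, h⟩
  · refine (h2 N ((le_max_right _ _).trans hN) T₀ ((le_max_right _ _).trans hT₀) hlog E hE
      (fun m hm => ?_)).trans (hmono K₂ (le_max_right _ _))
    obtain ⟨q, hq, hqm, h⟩ := hbad m hm
    rw [neg_mul, one_mul, dvd_neg, Int.natCast_dvd_natCast] at hqm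
    exact ⟨q, hq, hqm, h⟩

/-- the bad integers -/
noncomputable def PBad (ε : ℝ) (N Y : ℕ) : Finset ℤ := by
  classical
  exact (Finset.Icc (-(N : ℤ)) N).filter (fun n : ℤ => n ≠ 0 ∧
          ∃ n' : ℤ, Squarefree n' ∧ (∃ k : ℤ, n = n' * k ^ 2) ∧
            ¬ (∀ q : ℕ, q.Prime → (q : ℤ) ∣ n → ∀ x : ℕ, Y ≤ x →
              (x : ℝ) ≤ Real.exp ((q : ℝ) ^ (1 / 13 : ℝ)) → |share n x - dens n'| ≤ ε))

lemma mem_PBad {ε : ℝ} {N Y : ℕ} {n : ℤ} : n ∈ PBad ε N Y ↔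
    n.natAbs ≤ N ∧ n ≠ 0 ∧ ∃ n' : ℤ, Squarefree n' ∧ (∃ k : ℤ, n = n' * k ^ 2) ∧
      ∃ q : ℕ, q.Prime ∧ (q : ℤ) ∣ n ∧ ∃ x : ℕ, Y ≤ x ∧
        (x : ℝ) ≤ Real.exp ((q : ℝ) ^ (1 / 13 : ℝ)) ∧
        ε < |artinP n x / Nat.primeCounting x - dens n'| := by
  classical
  unfold PBad
  rw [Finset.mem_filter, Finset.mem_Icc]
  constructor
  · rintro ⟨⟨h1, h1'⟩, h2, n', h3, h4, h5⟩
    refine ⟨by omega, h2, n', h3, h4, ?_⟩
    push Not at h5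
    obtain ⟨q, hq, hqn, x, hx1, hx2, hx3⟩ := h5
    rw [Pool.Agent.ARU.share_artinP] at hx3
    exact ⟨q, hq, hqn, x, hx1, hx2, hx3⟩
  · rintro ⟨h1, h2, n', h3, h4, q, hq, hqn, x, hx1, hx2, hx3⟩
    refine ⟨⟨by omega, by omega⟩, h2, n', h3, h4, ?_⟩
    push Not
    refine ⟨q, hq, hqn, x, hx1, hx2, ?_⟩
    rw [Pool.Agent.ARU.share_artinP]
    exact hx3

lemma PBad_triv (ε : ℝ) (N Y : ℕ) : ((PBad ε N Y).card : ℝ) ≤ 2 * N := by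
  refine Pool.Agent.ARU.signed_count N (N : ℝ) (fun _ => True) (fun a _ E hE _ => ?_) _ ?_
  · have h6 : E ⊆ Finset.Icc 1 N := fun m hm => Finset.mem_Icc.mpr (hE m hm)
    have h7 := Finset.card_le_card h6
    rw [Nat.card_Icc] at h7
    exact_mod_cast (by omega : E.card ≤ N)
  · intro n hn
    rw [mem_PBad] at hn
    exact ⟨hn.2.1, hn.1, trivial⟩

/-- LARGEST PRIME FACTOR RANGE, all integers. -/
theorem largest_prime_range (ε : ℝ) (hε : 0 < ε) :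
    ∃ κ : ℝ, 0 < κ ∧ ∃ C : ℝ, 0 < C ∧ ∃ Y₀ : ℕ, ∀ N Y : ℕ, Y₀ ≤ Y →
      ((PBad ε N Y).card : ℝ) ≤
        N * Real.exp (-((Y : ℝ) ^ κ)) + C * N * Real.exp (-(SS N / 5)) := by
  classical
  obtain ⟨κ, hκ, C₁, hC₁, Y₀, hfull⟩ := full_range_u (1 / 20) ε (by norm_num) (by norm_num) hε
  obtain ⟨T₁, hT₁, N₁, hN₁, C₆, hC₆, htail⟩ := tail_signed (ε / 2) (by positivity)
  obtain ⟨N₂, hN₂⟩ := vv_small
  obtain ⟨N₃, hN₃⟩ := ss_large (max T₁ 101)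
  set B : ℕ := ⌈2 / ε⌉₊ with hB
  set N₀ : ℕ := max (max N₁ N₂) (max N₃ 2) with hN₀
  set Cb : ℝ := 2 * N₀ + (2 * C₁ + 2 * C₆ + ((2 * B + 1 : ℕ) : ℝ) * 2) with hCb
  have hCb0 : 0 < Cb := by positivity
  refine ⟨κ, hκ, Cb, hCb0, Y₀, ?_⟩
  intro N Y hY
  set V : ℝ := Real.exp (-(SS N / 5)) with hV
  have hV0 : 0 < V := Real.exp_pos _
  rcases lt_or_ge N N₀ with hsm | hN
  · have h1 := PBad_triv ε N Y
    have h2 := triv_small hsm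
    rw [← hV] at h2
    have h3 : 2 * (N₀ : ℝ) * N * V ≤ Cb * N * V := by
      apply mul_le_mul_of_nonneg_right _ hV0.le
      apply mul_le_mul_of_nonneg_right _ (Nat.cast_nonneg _)
      rw [hCb]
      have : 0 ≤ 2 * C₁ + 2 * C₆ + ((2 * B + 1 : ℕ) : ℝ) * 2 := by positivity
      linarith
    have h4 : 0 ≤ (N : ℝ) * Real.exp (-((Y : ℝ) ^ κ)) := by positivity
    linarith
  have hN1' : N₁ ≤ N := ((le_max_left _ _).trans (le_max_left _ _)).trans hN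
  have hN2' : N₂ ≤ N := ((le_max_right _ _).trans (le_max_left _ _)).trans hN
  have hN3' : N₃ ≤ N := ((le_max_left _ _).trans (le_max_right _ _)).trans hN
  have hN2 : 2 ≤ N := ((le_max_right _ _).trans (le_max_right _ _)).trans hN
  have hN1 : 1 ≤ N := by omega
  have hNpos : (0 : ℝ) < N := by exact_mod_cast hN1
  have hlN : 0 ≤ Real.log N := Real.log_natCast_nonneg N
  obtain ⟨T₀, hT₀⟩ : ∃ T₀ : ℝ, T₀ = Real.exp (SS N) := ⟨_, rfl⟩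
  have hvv := hN₂ N hN2'
  obtain ⟨hB1, hB2⟩ := hN₃ N hN3'
  rw [← hT₀] at hvv hB1 hB2
  rw [← hV] at hvv
  have hT1T : T₁ ≤ T₀ := (le_max_left _ _).trans hB1
  have hT4 : 4 ≤ T₀ := hT₁.trans hT1T
  have hlogT : 101 * Real.log N ≤ T₀ :=
    (mul_le_mul_of_nonneg_right (le_max_right T₁ 101) hlN).trans hB2
  have hpow : T₀ ^ (-(1 / 4) : ℝ) ≤ V := by
    rw [hT₀, ← Real.exp_mul, hV]
    apply Real.exp_le_exp.mpr
    have := SS_nonneg N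
    linarith
  set Q₃ : ℤ → Prop := fun n => ∃ q : ℕ, q.Prime ∧ (q : ℤ) ∣ n ∧
    ∃ x : ℕ, Real.exp T₀ < x ∧ (x : ℝ) ≤ Real.exp ((q : ℝ) ^ (1 / 13 : ℝ)) ∧
    ε / 2 < |artinP n x / Nat.primeCounting x - CA| with hQ₃
  set D₃ : Finset ℤ := (Finset.Icc (-(N : ℤ)) N).filter (fun n : ℤ => n ≠ 0 ∧ Q₃ n) with hD₃
  set D₄ : Finset ℤ := (Finset.Icc (-(N : ℤ)) N).filter (fun n : ℤ => n ≠ 0 ∧
    ∃ b : ℤ, b.natAbs ≤ B ∧ ∃ m : ℤ, n = b * m ^ 2) with hD₄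
  have hD₃c : (D₃.card : ℝ) ≤ 2 * (C₆ * N * T₀ ^ (-(1 / 4) : ℝ)) := by
    refine Pool.Agent.ARU.signed_count N _ Q₃
      (fun a ha E hE hQ => htail N hN1' T₀ hT1T hlogT a ha E hE hQ) D₃ ?_
    intro n hn
    rw [hD₃, Finset.mem_filter, Finset.mem_Icc] at hn
    exact ⟨hn.2.1, by omega, hn.2.2⟩
  have hD₄c : (D₄.card : ℝ) ≤ ((2 * B + 1 : ℕ) : ℝ) * 2 * (N : ℝ) ^ (1 / 2 : ℝ) := by
    have h4 := small_part_count B N D₄ (fun n hn => by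
      rw [hD₄, Finset.mem_filter, Finset.mem_Icc] at hn
      exact ⟨by omega, hn.2.1⟩) (fun n hn => (Finset.mem_filter.mp hn).2.2)
    have h5 : (D₄.card : ℝ) ≤ ((2 * B + 1 : ℕ) : ℝ) * ((Nat.sqrt N : ℝ) + 1) := by
      exact_mod_cast h4
    have h6 : (Nat.sqrt N : ℝ) ≤ (N : ℝ) ^ (1/2 : ℝ) := by
      rw [← Real.sqrt_eq_rpow]
      exact Real.nat_sqrt_le_real_sqrt
    have hh1 : (1 : ℝ) ≤ (N : ℝ) ^ (1 / 2 : ℝ) :=
      Real.one_le_rpow (by exact_mod_cast hN1) (by norm_num)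
    calc (D₄.card : ℝ) ≤ ((2 * B + 1 : ℕ) : ℝ) * ((Nat.sqrt N : ℝ) + 1) := h5
      _ ≤ ((2 * B + 1 : ℕ) : ℝ) * (2 * (N : ℝ) ^ (1 / 2 : ℝ)) := by
          apply mul_le_mul_of_nonneg_left _ (Nat.cast_nonneg _)
          linarith
      _ = _ := by ring
  have hsub : PBad ε N Y ⊆ ZBad ε N Y (Real.exp T₀) ∪ D₃ ∪ D₄ := by
    intro n hn
    rw [mem_PBad] at hn
    obtain ⟨hnN, hn0, n', hsq, ⟨k, hk⟩, q, hq, hqn, x, hx1, hx2, hx3⟩ := hn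
    have hnI : n ∈ Finset.Icc (-(N : ℤ)) N := by
      rw [Finset.mem_Icc]
      omega
    rw [Finset.mem_union, Finset.mem_union]
    by_cases hnB : n'.natAbs ≤ B
    · right
      rw [hD₄, Finset.mem_filter]
      exact ⟨hnI, hn0, n', hnB, k, hk⟩
    left
    push Not at hnB
    have hclose := dens_close hsq hε hnB
    by_cases hxb : (x : ℝ) ≤ Real.exp T₀
    · left
      rw [mem_ZBad]
      exact ⟨hnN, hn0, n', hsq, ⟨k, hk⟩, x, hx1, hxb, hx3⟩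
    · right
      rw [hD₃, Finset.mem_filter]
      refine ⟨hnI, hn0, q, hq, hqn, x, not_le.mp hxb, hx2, ?_⟩
      have h10 := abs_sub_le (artinP n x / Nat.primeCounting x) CA (dens n')
      rw [abs_sub_comm] at hclose
      linarith
  have hcard : ((PBad ε N Y).card : ℝ) ≤
      (ZBad ε N Y (Real.exp T₀)).card + D₃.card + D₄.card := by
    have h4 := Finset.card_le_card hsub
    have h5 := Finset.card_union_le (ZBad ε N Y (Real.exp T₀) ∪ D₃) D₄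
    have h6 := Finset.card_union_le (ZBad ε N Y (Real.exp T₀)) D₃
    exact_mod_cast (by omega : (PBad ε N Y).card ≤
      (ZBad ε N Y (Real.exp T₀)).card + D₃.card + D₄.card)
  have hz := hfull N Y hY T₀ (by linarith)
  have e1 : C₁ * (N : ℝ) ^ (1 / 2 + 1 / 20 : ℝ) ≤ C₁ * (N * V) :=
    mul_le_mul_of_nonneg_left (pow_le_exp hN1 (by norm_num)) hC₁.le
  have e2 : C₁ * N * vv (1 / 20) N T₀ ≤ C₁ * (N * V) := by
    rw [mul_assoc]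
    exact mul_le_mul_of_nonneg_left (mul_le_mul_of_nonneg_left hvv hNpos.le) hC₁.le
  have e3 : 2 * (C₆ * N * T₀ ^ (-(1 / 4) : ℝ)) ≤ 2 * C₆ * (N * V) := by
    calc 2 * (C₆ * N * T₀ ^ (-(1 / 4) : ℝ)) = 2 * C₆ * (N * T₀ ^ (-(1 / 4) : ℝ)) := by ring
      _ ≤ 2 * C₆ * (N * V) :=
        mul_le_mul_of_nonneg_left (mul_le_mul_of_nonneg_left hpow hNpos.le) (by positivity)
  have e4 : ((2 * B + 1 : ℕ) : ℝ) * 2 * (N : ℝ) ^ (1 / 2 : ℝ) ≤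
      ((2 * B + 1 : ℕ) : ℝ) * 2 * (N * V) :=
    mul_le_mul_of_nonneg_left (pow_le_exp hN1 (by norm_num)) (by positivity)
  have e5 : Cb * N * V = 2 * N₀ * (N * V) + (2 * C₁ * (N * V) + 2 * C₆ * (N * V) +
      ((2 * B + 1 : ℕ) : ℝ) * 2 * (N * V)) := by
    rw [hCb]; ring
  have e6 : 0 ≤ 2 * (N₀ : ℝ) * (N * V) := by positivity
  linarith

end Pool.Agent.ARP
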