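import Pool.Agent.ARP.Sqp

set_option autoImplicit false

/-!
# ARP: the range `[Y, exp (max (T, q ^ (1 / 13)))]`, `q` the largest prime factor
-/

namespace Pool.Agent.ARP

open Filter Topology Pool.Agent.Helper8.ArtinLS Pool.Agent.Helper8.ArtinC Pool.Agent.Helper6
  Pool.Agent.ARX Pool.Agent.ARS Pool.Agent.ARV

/-- two exceptional proportions in one -/
lemma merge_exp {κ₁ κ₂ : ℝ} (h₁ : 0 < κ₁) (h₂ : 0 < κ₂) :
    ∃ κ : ℝ, 0 < κ ∧ ∃ Y₀ : ℕ, ∀ Y : ℕ, Y₀ ≤ Y →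
      Real.exp (-((Y : ℝ) ^ κ₁)) + Real.exp (-((Y : ℝ) ^ κ₂)) ≤ Real.exp (-((Y : ℝ) ^ κ)) := by
  obtain ⟨κ, hκ⟩ : ∃ κ : ℝ, κ = min κ₁ κ₂ / 2 := ⟨_, rfl⟩
  have hm : 0 < min κ₁ κ₂ := lt_min h₁ h₂
  have hκ0 : 0 < κ := by rw [hκ]; linarith
  refine ⟨κ, hκ0, ⌈(2 : ℝ) ^ (1 / κ)⌉₊, ?_⟩
  intro Y hY
  have hYr : (2 : ℝ) ^ (1 / κ) ≤ Y := (Nat.le_ceil _).trans (by exact_mod_cast hY)
  have h2 : (1 : ℝ) ≤ (2 : ℝ) ^ (1 / κ) := Real.one_le_rpow (by norm_num) (by positivity)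
  have hY1 : (1 : ℝ) ≤ Y := h2.trans hYr
  have hY0 : (0 : ℝ) < Y := by linarith
  have hYκ : 2 ≤ (Y : ℝ) ^ κ := by
    have h3 : ((2 : ℝ) ^ (1 / κ)) ^ κ ≤ (Y : ℝ) ^ κ :=
      Real.rpow_le_rpow (by positivity) hYr hκ0.le
    rw [← Real.rpow_mul (by norm_num), one_div, inv_mul_cancel₀ hκ0.ne', Real.rpow_one] at h3
    exact h3
  have hsq : (Y : ℝ) ^ (2 * κ) = (Y : ℝ) ^ κ * (Y : ℝ) ^ κ := by
    rw [← Real.rpow_add hY0]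
    congr 1
    ring
  have e1 : (Y : ℝ) ^ (2 * κ) ≤ (Y : ℝ) ^ κ₁ := by
    apply Real.rpow_le_rpow_of_exponent_le hY1
    rw [hκ]
    have := min_le_left κ₁ κ₂
    linarith
  have e2 : (Y : ℝ) ^ (2 * κ) ≤ (Y : ℝ) ^ κ₂ := by
    apply Real.rpow_le_rpow_of_exponent_le hY1
    rw [hκ]
    have := min_le_right κ₁ κ₂
    linarith
  have e3 : Real.exp (-((Y : ℝ) ^ κ₁)) ≤ Real.exp (-((Y : ℝ) ^ (2 * κ))) :=
    Real.exp_le_exp.mpr (by linarith)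
  have e4 : Real.exp (-((Y : ℝ) ^ κ₂)) ≤ Real.exp (-((Y : ℝ) ^ (2 * κ))) :=
    Real.exp_le_exp.mpr (by linarith)
  have e5 : (2 : ℝ) ≤ Real.exp 1 := by linarith [Real.exp_one_gt_d9]
  have e6 : 1 + -((Y : ℝ) ^ (2 * κ)) ≤ -((Y : ℝ) ^ κ) := by
    rw [hsq]
    nlinarith
  calc Real.exp (-((Y : ℝ) ^ κ₁)) + Real.exp (-((Y : ℝ) ^ κ₂))
      ≤ 2 * Real.exp (-((Y : ℝ) ^ (2 * κ))) := by linarith
    _ ≤ Real.exp 1 * Real.exp (-((Y : ℝ) ^ (2 * κ))) :=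
        mul_le_mul_of_nonneg_right e5 (Real.exp_pos _).le
    _ = Real.exp (1 + -((Y : ℝ) ^ (2 * κ))) := (Real.exp_add _ _).symm
    _ ≤ _ := Real.exp_le_exp.mpr e6

/-- the bad integers for the range up to `exp T` or `exp (q ^ (1 / 13))` -/
noncomputable def UBad (ε : ℝ) (N Y : ℕ) (T : ℝ) : Finset ℤ := by
  classical
  exact (Finset.Icc (-(N : ℤ)) N).filter (fun n : ℤ => n ≠ 0 ∧
          ∃ n' : ℤ, Squarefree n' ∧ (∃ k : ℤ, n = n' * k ^ 2) ∧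
            ¬ (∀ x : ℕ, Y ≤ x → ((x : ℝ) ≤ Real.exp T ∨ ∃ q : ℕ, q.Prime ∧ (q : ℤ) ∣ n ∧
              (x : ℝ) ≤ Real.exp ((q : ℝ) ^ (1 / 13 : ℝ))) → |share n x - dens n'| ≤ ε))

lemma UBad_sub (ε : ℝ) (N Y : ℕ) (T : ℝ) :
    UBad ε N Y T ⊆ ZBad ε N Y (Real.exp T) ∪ PBad ε N Y := by
  classical
  intro n hn
  unfold UBad at hn
  rw [Finset.mem_filter, Finset.mem_Icc] at hn
  obtain ⟨⟨h1, h1'⟩, h2, n', h3, h4, h5⟩ := hn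
  push Not at h5
  obtain ⟨x, hx1, hx2, hx3⟩ := h5
  rw [Pool.Agent.ARU.share_artinP] at hx3
  rw [Finset.mem_union]
  rcases hx2 with hx2 | ⟨q, hq, hqn, hx2⟩
  · left
    rw [mem_ZBad]
    exact ⟨by omega, h2, n', h3, h4, x, hx1, hx2, hx3⟩
  · right
    rw [mem_PBad]
    exact ⟨by omega, h2, n', h3, h4, q, hq, hqn, x, hx1, hx2, hx3⟩

/-- BOTH RANGES, all integers. -/
theorem largest_prime_T (δ ε : ℝ) (hδ : 0 < δ) (hδ2 : δ < 1 / 4) (hε : 0 < ε) :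
    ∃ κ : ℝ, 0 < κ ∧ ∃ C : ℝ, 0 < C ∧ ∃ Y₀ : ℕ, ∀ N Y : ℕ, Y₀ ≤ Y → ∀ T : ℝ, 2 ≤ T →
      ((UBad ε N Y T).card : ℝ) ≤
        N * Real.exp (-((Y : ℝ) ^ κ)) + C * N * vv δ N T + C * N * Real.exp (-(SS N / 5)) := by
  obtain ⟨κ₁, hκ₁, C₁, hC₁, Y₁, h1⟩ := full_range_u δ ε hδ (by linarith) hε
  obtain ⟨κ₂, hκ₂, C₂, hC₂, Y₂, h2⟩ := largest_prime_range ε hε
  obtain ⟨κ, hκ, Y₃, h3⟩ := merge_exp hκ₁ hκ₂
  refine ⟨κ, hκ, C₁ + C₂, by positivity, max (max Y₁ Y₂) Y₃, ?_⟩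
  intro N Y hY T hT
  have hY1 : Y₁ ≤ Y := ((le_max_left _ _).trans (le_max_left _ _)).trans hY
  have hY2 : Y₂ ≤ Y := ((le_max_right _ _).trans (le_max_left _ _)).trans hY
  have hY3 : Y₃ ≤ Y := (le_max_right _ _).trans hY
  have hN0 : (0 : ℝ) ≤ N := Nat.cast_nonneg _
  have hvv0 : 0 ≤ vv δ N T := vv_nonneg δ N (by linarith)
  have e1 := h1 N Y hY1 T hT
  have e2 := h2 N Y hY2
  have e3 := mul_le_mul_of_nonneg_left (h3 Y hY3) hN0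
  have hcard : ((UBad ε N Y T).card : ℝ) ≤
      (ZBad ε N Y (Real.exp T)).card + (PBad ε N Y).card := by
    exact_mod_cast (Finset.card_le_card (UBad_sub ε N Y T)).trans (Finset.card_union_le _ _)
  have e4 : C₁ * (N : ℝ) ^ (1 / 2 + δ) ≤ C₁ * (N * Real.exp (-(SS N / 5))) := by
    rcases Nat.eq_zero_or_pos N with h0 | h0
    · rw [h0, Nat.cast_zero, Real.zero_rpow (by linarith), zero_mul]
    · exact mul_le_mul_of_nonneg_left (pow_le_exp h0 (by linarith)) hC₁.le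
  have e5 : 0 ≤ C₂ * (N * vv δ N T) := by positivity
  have e6 : (C₁ + C₂) * N * vv δ N T = C₁ * N * vv δ N T + C₂ * (N * vv δ N T) := by ring
  have e7 : (C₁ + C₂) * N * Real.exp (-(SS N / 5)) =
      C₁ * (N * Real.exp (-(SS N / 5))) + C₂ * N * Real.exp (-(SS N / 5)) := by ring
  rw [mul_add] at e3
  linarith

/-- the bad `m` of the class of `b` for the range up to `exp T` or `exp (q ^ (1 / 13))` -/
noncomputable def USq (b : ℤ) (ε : ℝ) (M Y : ℕ) (T : ℝ) : Finset ℕ := by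
  classical
  exact (Finset.Icc 1 M).filter (fun m : ℕ =>
    ¬ (∀ x : ℕ, Y ≤ x → ((x : ℝ) ≤ Real.exp T ∨ ∃ q : ℕ, q.Prime ∧ q ∣ m ∧
      (x : ℝ) ≤ Real.exp ((q : ℝ) ^ (1 / 13 : ℝ))) → |share (b * (m : ℤ) ^ 2) x - dens b| ≤ ε))

lemma USq_sub (b : ℤ) (ε : ℝ) (M Y : ℕ) (T : ℝ) :
    USq b ε M Y T ⊆ SqBad b ε M Y (Real.exp T) ∪ PSq b ε M Y := by
  classical
  intro m hm
  unfold USq at hm
  rw [Finset.mem_filter, Finset.mem_Icc] at hm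
  obtain ⟨h1, h5⟩ := hm
  push Not at h5
  obtain ⟨x, hx1, hx2, hx3⟩ := h5
  rw [Pool.Agent.ARU.share_artinP] at hx3
  rw [Finset.mem_union]
  rcases hx2 with hx2 | ⟨q, hq, hqm, hx2⟩
  · left
    rw [mem_SqBad]
    exact ⟨h1, x, hx1, hx2, hx3⟩
  · right
    rw [mem_PSq]
    exact ⟨h1, q, hq, hqm, x, hx1, hx2, hx3⟩

/-- BOTH RANGES, one square class. -/
theorem largest_prime_square_T (b : ℤ) (hb : Squarefree b) (hb4 : b % 4 = 1) (hb1 : b ≠ 1)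
    (δ ε : ℝ) (hδ : 0 < δ) (hδ2 : δ < 1 / 4) (hε : 0 < ε) :
    ∃ κ : ℝ, 0 < κ ∧ ∃ C : ℝ, 0 < C ∧ ∃ Y₀ : ℕ, ∀ M Y : ℕ, Y₀ ≤ Y → ∀ T : ℝ, 2 ≤ T →
      ((USq b ε M Y T).card : ℝ) ≤
        M * Real.exp (-((Y : ℝ) ^ κ)) + C * M * vv δ M T + C * M * Real.exp (-(SS M / 5)) := by
  obtain ⟨κ₁, hκ₁, C₁, hC₁, Y₁, h1⟩ := square_u b hb hb4 hb1 δ ε hδ (by linarith) hε
  obtain ⟨κ₂, hκ₂, C₂, hC₂, Y₂, h2⟩ := largest_prime_square b hb hb4 hb1 ε hε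
  obtain ⟨κ, hκ, Y₃, h3⟩ := merge_exp hκ₁ hκ₂
  refine ⟨κ, hκ, C₁ + C₂, by positivity, max (max Y₁ Y₂) Y₃, ?_⟩
  intro N Y hY T hT
  have hY1 : Y₁ ≤ Y := ((le_max_left _ _).trans (le_max_left _ _)).trans hY
  have hY2 : Y₂ ≤ Y := ((le_max_right _ _).trans (le_max_left _ _)).trans hY
  have hY3 : Y₃ ≤ Y := (le_max_right _ _).trans hY
  have hN0 : (0 : ℝ) ≤ N := Nat.cast_nonneg _
  have hvv0 : 0 ≤ vv δ N T := vv_nonneg δ N (by linarith)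
  have e1 := h1 N Y hY1 T hT
  have e2 := h2 N Y hY2
  have e3 := mul_le_mul_of_nonneg_left (h3 Y hY3) hN0
  have hcard : ((USq b ε N Y T).card : ℝ) ≤
      (SqBad b ε N Y (Real.exp T)).card + (PSq b ε N Y).card := by
    exact_mod_cast (Finset.card_le_card (USq_sub b ε N Y T)).trans (Finset.card_union_le _ _)
  have e4 : C₁ * (N : ℝ) ^ (1 / 2 + δ) ≤ C₁ * (N * Real.exp (-(SS N / 5))) := by
    rcases Nat.eq_zero_or_pos N with h0 | h0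
    · rw [h0, Nat.cast_zero, Real.zero_rpow (by linarith), zero_mul]
    · exact mul_le_mul_of_nonneg_left (pow_le_exp h0 (by linarith)) hC₁.le
  have e5 : 0 ≤ C₂ * (N * vv δ N T) := by positivity
  have e6 : (C₁ + C₂) * N * vv δ N T = C₁ * N * vv δ N T + C₂ * (N * vv δ N T) := by ring
  have e7 : (C₁ + C₂) * N * Real.exp (-(SS N / 5)) =
      C₁ * (N * Real.exp (-(SS N / 5))) + C₂ * N * Real.exp (-(SS N / 5)) := by ring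
  rw [mul_add] at e3
  linarith

end Pool.Agent.ARP
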