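import Pool.Agent.ARS.Rgt

set_option autoImplicit false

/-!
# ARP module PRI: one scale, prime variable

`s` is fixed, `E` is a set of primes `≤ M`.  The number of ordered factorisations of length `r` with
factors in `E` is at most `r ^ r`.  `r = ⌈2 log x / log M⌉ ≤ T`, `|E| ^ r ≤ r ^ r G ^ r (56 M x)`,
`G = 4 ℓ ^ 2 (1 + ℓ) ^ 2 / ε ^ 2 ≤ T ^ (4 + 1/20)`, `x ≤ M ^ (r / 2)`, `56 M ≤ M ^ (r / 100)` as
`r ≥ 200`.  So `|E| ≤ M ^ (51 / 100) T ^ (5 + 1 / 20)`.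
-/

namespace Pool.Agent.ARP

open Pool.Agent.ARS Pool.Agent.Helper8.ArtinLS Pool.Agent.Helper6

/-- ordered factorisations into primes -/
theorem rep_prime (E : Finset ℕ) (hE : ∀ q ∈ E, q.Prime) (r : ℕ) : Rep E r (r ^ r) := by
  intro n
  classical
  rcases Finset.eq_empty_or_nonempty ((Fintype.piFinset fun _ : Fin r => E).filter
    (fun t => ∏ i, t i = n)) with h | ⟨t0, ht0⟩
  · rw [h, Finset.card_empty]; exact Nat.zero_le _
  rw [Finset.mem_filter, Fintype.mem_piFinset] at ht0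
  obtain ⟨ht0E, ht0n⟩ := ht0
  have hn0 : n ≠ 0 := by
    rw [← ht0n]
    exact Finset.prod_ne_zero_iff.mpr fun i _ => (hE _ (ht0E i)).ne_zero
  have hpf : n.primeFactors ⊆ Finset.image t0 Finset.univ := by
    intro q hq
    have hqp := Nat.prime_of_mem_primeFactors hq
    have hqn := Nat.dvd_of_mem_primeFactors hq
    rw [← ht0n, Prime.dvd_finset_prod_iff hqp.prime] at hqn
    obtain ⟨i, _, hi⟩ := hqn
    rw [Finset.mem_image]
    exact ⟨i, Finset.mem_univ _, ((Nat.prime_dvd_prime_iff_eq hqp (hE _ (ht0E i))).mp hi).symm⟩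
  have hcard : n.primeFactors.card ≤ r := by
    refine (Finset.card_le_card hpf).trans (Finset.card_image_le.trans ?_)
    simp
  have hsub : (Fintype.piFinset fun _ : Fin r => E).filter (fun t => ∏ i, t i = n) ⊆
      Fintype.piFinset fun _ : Fin r => n.primeFactors := by
    intro t ht
    rw [Finset.mem_filter, Fintype.mem_piFinset] at ht
    rw [Fintype.mem_piFinset]
    intro i
    rw [Nat.mem_primeFactors]
    refine ⟨hE _ (ht.1 i), ?_, hn0⟩
    rw [← ht.2]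
    exact Finset.dvd_prod_of_mem _ (Finset.mem_univ i)
  refine (Finset.card_le_card hsub).trans ?_
  rw [Fintype.card_piFinset_const]
  exact Nat.pow_le_pow_left hcard r

theorem prime_scale (ε : ℝ) (hε : 0 < ε) :
    ∃ T₀ : ℝ, 2 ≤ T₀ ∧ ∀ T : ℝ, T₀ ≤ T → ∀ x M : ℕ,
      T ≤ M → M ^ 100 ≤ x →
      Real.log x ≤ T → ∀ g : ℕ → ℝ, Sieve x g → ∀ s : ℕ, ∀ E : Finset ℕ,
      (∀ q ∈ E, q.Prime ∧ q ≤ M) →
      (∀ q ∈ E, ε * Nat.primeCounting x ≤ |g (s * q)|) →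
      (E.card : ℝ) ≤ (M : ℝ) ^ (51 / 100 : ℝ) * T ^ (101 / 20 : ℝ) := by
  obtain ⟨X₁, hX₁3, hX₁⟩ := pi_lower
  refine ⟨max (max (X₁ : ℝ) 56) ((16 / ε ^ 2) ^ (20 : ℕ)), ?_, ?_⟩
  · exact le_trans (by norm_num) ((le_max_right _ _).trans (le_max_left _ _))
  intro T hT x M hTM hMx hxT g hg s E hE hbad
  have hTX : (X₁ : ℝ) ≤ T := (le_max_left _ _).trans ((le_max_left _ _).trans hT)
  have hT56 : (56 : ℝ) ≤ T := (le_max_right _ _).trans ((le_max_left _ _).trans hT)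
  have hTε : (16 / ε ^ 2) ^ (20 : ℕ) ≤ T := (le_max_right _ _).trans hT
  have hT0 : (0 : ℝ) < T := by linarith
  have hT1 : (1 : ℝ) ≤ T := by linarith
  have hMx' : (M : ℝ) ^ 100 ≤ x := by exact_mod_cast hMx
  have hM1r : (1 : ℝ) ≤ M := by linarith
  have hM56 : (56 : ℝ) ≤ M := by linarith
  have hM0 : (0 : ℝ) < M := by linarith
  have hM1 : 1 ≤ M := by exact_mod_cast hM1r
  have hMx1 : (M : ℝ) ≤ x := (le_self_pow₀ hM1r (by omega)).trans hMx'
  have hx1r : (1 : ℝ) ≤ x := by linarith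
  have hx0 : (0 : ℝ) < x := by linarith
  have hx1 : 1 ≤ x := by exact_mod_cast hx1r
  have hxX : X₁ ≤ x := by
    have h1 : (X₁ : ℝ) ≤ x := by linarith
    exact_mod_cast h1
  set LT := Real.log T with hLT
  set K := Real.log M with hKdef
  set ℓ := Real.log x with hℓdef
  have hLT0 : 0 ≤ LT := Real.log_nonneg hT1
  have h56K : Real.log 56 ≤ K := Real.log_le_log (by norm_num) hM56
  have hK4 : 4 ≤ K := by
    refine le_trans ?_ h56K
    rw [Real.le_log_iff_exp_le (by norm_num)]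
    have h1 : Real.exp 4 = Real.exp 1 ^ 4 := by rw [← Real.exp_nat_mul]; norm_num
    rw [h1]
    have h2 := Real.exp_one_lt_d9
    have h3 : Real.exp 1 ^ 4 ≤ 2.7182818286 ^ 4 :=
      pow_le_pow_left₀ (Real.exp_pos _).le h2.le 4
    refine h3.trans ?_
    norm_num
  have hK0 : 0 < K := by linarith
  have hℓK : 100 * K ≤ ℓ := by
    have h1 := Real.log_le_log (by positivity) hMx'
    rw [Real.log_pow] at h1
    exact_mod_cast h1
  have hℓ1 : 1 ≤ ℓ := by linarith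
  have hℓ0 : 0 < ℓ := by linarith
  have hexpK : Real.exp K = M := Real.exp_log hM0
  have hexpl : Real.exp ℓ = x := Real.exp_log hx0
  have hexpT : Real.exp LT = T := Real.exp_log hT0
  have hπ := hX₁ x hxX
  -- the number r
  set r := ⌈2 * ℓ / K⌉₊ with hrdef
  have hr_lo : 2 * ℓ / K ≤ r := Nat.le_ceil _
  have hr_hi : (r : ℝ) < 2 * ℓ / K + 1 := Nat.ceil_lt_add_one (by positivity)
  have hrL_lo : 2 * ℓ ≤ r * K := by rwa [div_le_iff₀ hK0] at hr_lo
  have hrL_hi : r * K ≤ 2 * ℓ + K := by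
    have h5 := mul_le_mul_of_nonneg_right hr_hi.le hK0.le
    have h6 : (2 * ℓ / K + 1) * K = 2 * ℓ + K := by field_simp
    linarith
  have hr200 : (200 : ℝ) ≤ r := by
    have h5 : 200 ≤ 2 * ℓ / K := by
      rw [le_div_iff₀ hK0]
      linarith
    linarith
  have hr1 : 1 ≤ r := by
    have h5 : (1 : ℝ) ≤ r := by linarith
    exact_mod_cast h5
  have hr0 : (0 : ℝ) < r := by linarith
  have hrT : (r : ℝ) ≤ T := by
    have h5 : 2 * ℓ / K ≤ 2 * ℓ / 4 := div_le_div_of_nonneg_left (by positivity) (by norm_num) hK4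
    linarith
  have hRep : Rep E r (r ^ r) := rep_prime E (fun q hq => (hE q hq).1) r
  -- the threshold
  set W : ℝ := ε * Nat.primeCounting x with hW
  have hW0 : 0 ≤ W := by positivity
  have hmain := hg s M r (r ^ r) E hr1 (fun m hm => (hE m hm).2) hRep W hW0 hbad
  rw [← hℓdef] at hmain
  -- M ^ r ≤ x ^ 2 M
  have hMr : (M : ℝ) ^ r ≤ (x : ℝ) ^ 2 * M := by
    have h5 : (M : ℝ) ^ r = Real.exp (r * K) := by
      rw [hKdef, ← Real.log_pow, Real.exp_log (by positivity)]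
    have h6 : (x : ℝ) ^ 2 * M = Real.exp (2 * ℓ + K) := by
      rw [Real.exp_add, two_mul, Real.exp_add, hexpl, hexpK]
      ring
    rw [h5, h6]
    exact Real.exp_le_exp.mpr hrL_hi
  have hMr1 : (1 : ℝ) ≤ (M : ℝ) ^ r := one_le_pow₀ hM1r
  have hfac : (x : ℝ) ^ 2 + 4 * Real.pi * ((M : ℝ) ^ r + 1) ≤ 28 * ((x : ℝ) ^ 2 * M) := by
    have h5 : Real.pi < 3.15 := Real.pi_lt_d2
    have h6 : (x : ℝ) ^ 2 ≤ (x : ℝ) ^ 2 * M := le_mul_of_one_le_right (by positivity) hM1r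
    have h7 : 4 * Real.pi * ((M : ℝ) ^ r + 1) ≤ 4 * 3.15 * (2 * ((x : ℝ) ^ 2 * M)) := by
      apply mul_le_mul (by linarith) (by linarith) (by positivity) (by norm_num)
    have h8 : (0 : ℝ) ≤ (x : ℝ) ^ 2 * M := by positivity
    calc (x : ℝ) ^ 2 + 4 * Real.pi * ((M : ℝ) ^ r + 1)
        ≤ (x : ℝ) ^ 2 * M + 4 * 3.15 * (2 * ((x : ℝ) ^ 2 * M)) := add_le_add h6 h7
      _ = 26.2 * ((x : ℝ) ^ 2 * M) := by ring
      _ ≤ 28 * ((x : ℝ) ^ 2 * M) := mul_le_mul_of_nonneg_right (by norm_num) h8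
  have hWlow : ε * x / (2 * ℓ) ≤ W := by
    rw [hW]
    calc ε * x / (2 * ℓ) = ε * (x / (2 * ℓ)) := by ring
      _ ≤ ε * (Nat.primeCounting x : ℝ) := mul_le_mul_of_nonneg_left hπ hε.le
  set G := 4 * ℓ ^ 2 * (1 + ℓ) ^ 2 / ε ^ 2 with hGdef
  have hG0 : 0 < G := by positivity
  have hGT : ((x : ℝ) * (1 + ℓ)) ^ 2 ≤ G * W ^ 2 := by
    have h5 : (ε * x / (2 * ℓ)) ^ 2 ≤ W ^ 2 := pow_le_pow_left₀ (by positivity) hWlow 2
    calc ((x : ℝ) * (1 + ℓ)) ^ 2 = G * (ε * x / (2 * ℓ)) ^ 2 := by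
          rw [hGdef]
          field_simp
          ring
      _ ≤ G * W ^ 2 := mul_le_mul_of_nonneg_left h5 hG0.le
  have hWpos : 0 < W := lt_of_lt_of_le (by positivity) hWlow
  -- conclusion for the r-th power
  have hpow : (E.card : ℝ) ^ r ≤ (r : ℝ) ^ r * G ^ r * (56 * M * x) := by
    have h5 : (x : ℝ) * ((E.card : ℝ) * W ^ 2) ^ r ≤
        2 * (r : ℝ) ^ r * (G * W ^ 2) ^ r * (28 * ((x : ℝ) ^ 2 * M)) := by
      refine hmain.trans ?_
      push_cast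
      refine mul_le_mul ?_ hfac (by positivity) (by positivity)
      exact mul_le_mul_of_nonneg_left (pow_le_pow_left₀ (by positivity) hGT r) (by positivity)
    rw [mul_pow (E.card : ℝ) (W ^ 2) r, mul_pow G (W ^ 2) r] at h5
    have h6 : 0 < (x : ℝ) * (W ^ 2) ^ r := by positivity
    have h7 : (E.card : ℝ) ^ r * ((x : ℝ) * (W ^ 2) ^ r) ≤
        ((r : ℝ) ^ r * G ^ r * (56 * M * x)) * ((x : ℝ) * (W ^ 2) ^ r) := by
      calc (E.card : ℝ) ^ r * ((x : ℝ) * (W ^ 2) ^ r)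
          = (x : ℝ) * ((E.card : ℝ) ^ r * (W ^ 2) ^ r) := by ring
        _ ≤ 2 * (r : ℝ) ^ r * (G ^ r * (W ^ 2) ^ r) * (28 * ((x : ℝ) ^ 2 * M)) := h5
        _ = _ := by ring
    exact le_of_mul_le_mul_right h7 h6
  have hGb : G ≤ T ^ (81 / 20 : ℝ) := by
    have h5 : G ≤ 16 / ε ^ 2 * T ^ 4 := by
      have h6 : 4 * ℓ ^ 2 * (1 + ℓ) ^ 2 ≤ 4 * T ^ 2 * (2 * T) ^ 2 := by
        have h7 : 1 + ℓ ≤ 2 * T := by linarith
        gcongr
      calc G ≤ 4 * T ^ 2 * (2 * T) ^ 2 / ε ^ 2 := by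
            rw [hGdef]
            gcongr
        _ = 16 / ε ^ 2 * T ^ 4 := by ring
    have h6 : 16 / ε ^ 2 ≤ T ^ (1 / 20 : ℝ) := by
      have h7 : ((16 / ε ^ 2) ^ (20 : ℕ)) ^ (1 / 20 : ℝ) ≤ T ^ (1 / 20 : ℝ) :=
        Real.rpow_le_rpow (by positivity) hTε (by norm_num)
      rw [← Real.rpow_natCast, ← Real.rpow_mul (by positivity)] at h7
      norm_num at h7
      exact h7
    have h8 : T ^ (81 / 20 : ℝ) = T ^ (1 / 20 : ℝ) * T ^ 4 := by
      rw [← Real.rpow_natCast T 4, ← Real.rpow_add hT0]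
      norm_num
    rw [h8]
    exact h5.trans (mul_le_mul_of_nonneg_right h6 (by positivity))
  have hlast : (56 : ℝ) * M * x ≤ ((M : ℝ) ^ (51 / 100 : ℝ)) ^ r := by
    have h5 : ((M : ℝ) ^ (51 / 100 : ℝ)) ^ r = Real.exp (r * (K * (51 / 100))) := by
      rw [Real.rpow_def_of_pos hM0, ← Real.exp_nat_mul]
    have h6 : (56 : ℝ) * M * x ≤ Real.exp (K + K + ℓ) := by
      rw [Real.exp_add, Real.exp_add, hexpK, hexpl]
      gcongr
    refine h6.trans ?_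
    rw [h5]
    apply Real.exp_le_exp.mpr
    have h7 : 200 * K ≤ r * K := mul_le_mul_of_nonneg_right hr200 hK0.le
    linarith
  have hfin : (E.card : ℝ) ^ r ≤ ((M : ℝ) ^ (51 / 100 : ℝ) * T ^ (101 / 20 : ℝ)) ^ r := by
    refine hpow.trans ?_
    have h5 : T ^ (101 / 20 : ℝ) = T * T ^ (81 / 20 : ℝ) := by
      have : T * T ^ (81 / 20 : ℝ) = T ^ (1 : ℝ) * T ^ (81 / 20 : ℝ) := by rw [Real.rpow_one]
      rw [this, ← Real.rpow_add hT0]
      norm_num
    have h6 : (r : ℝ) ^ r ≤ T ^ r := pow_le_pow_left₀ hr0.le hrT r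
    have h7 : G ^ r ≤ (T ^ (81 / 20 : ℝ)) ^ r := pow_le_pow_left₀ hG0.le hGb r
    calc (r : ℝ) ^ r * G ^ r * (56 * M * x) ≤
        T ^ r * (T ^ (81 / 20 : ℝ)) ^ r * ((M : ℝ) ^ (51 / 100 : ℝ)) ^ r := by
          refine mul_le_mul (mul_le_mul h6 h7 (by positivity) (by positivity)) hlast
            (by positivity) (by positivity)
      _ = _ := by rw [h5, mul_pow, mul_pow]; ring
  exact le_of_pow_le_pow_left₀ (by omega) (by positivity) hfin

end Pool.Agent.ARP
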