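import Pool.Agent.ARP.Fip

set_option autoImplicit false

/-!
# ARP: the range up to `exp (q ^ (1 / 13))`, `q` the largest prime factor, one square class
-/

namespace Pool.Agent.ARP

open Filter Topology Pool.Agent.Helper8.ArtinLS Pool.Agent.Helper8.ArtinC Pool.Agent.Helper6
  Pool.Agent.ARX Pool.Agent.ARS Pool.Agent.ARV

/-- the bad `m` of the class of `b` -/
noncomputable def PSq (b : ℤ) (ε : ℝ) (M Y : ℕ) : Finset ℕ := by
  classical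
  exact (Finset.Icc 1 M).filter (fun m : ℕ =>
    ¬ (∀ q : ℕ, q.Prime → q ∣ m → ∀ x : ℕ, Y ≤ x →
      (x : ℝ) ≤ Real.exp ((q : ℝ) ^ (1 / 13 : ℝ)) → |share (b * (m : ℤ) ^ 2) x - dens b| ≤ ε))

lemma mem_PSq {b : ℤ} {ε : ℝ} {M Y m : ℕ} : m ∈ PSq b ε M Y ↔
    (1 ≤ m ∧ m ≤ M) ∧ ∃ q : ℕ, q.Prime ∧ q ∣ m ∧ ∃ x : ℕ, Y ≤ x ∧
      (x : ℝ) ≤ Real.exp ((q : ℝ) ^ (1 / 13 : ℝ)) ∧
      ε < |artinP (b * (m : ℤ) ^ 2) x / Nat.primeCounting x - dens b| := by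
  classical
  unfold PSq
  rw [Finset.mem_filter, Finset.mem_Icc]
  constructor
  · rintro ⟨h1, h2⟩
    refine ⟨h1, ?_⟩
    push Not at h2
    obtain ⟨q, hq, hqm, x, hx1, hx2, hx3⟩ := h2
    rw [Pool.Agent.ARU.share_artinP] at hx3
    exact ⟨q, hq, hqm, x, hx1, hx2, hx3⟩
  · rintro ⟨h1, q, hq, hqm, x, hx1, hx2, hx3⟩
    refine ⟨h1, ?_⟩
    push Not
    refine ⟨q, hq, hqm, x, hx1, hx2, ?_⟩
    rw [Pool.Agent.ARU.share_artinP]
    exact hx3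

/-- LARGEST PRIME FACTOR RANGE, one square class. -/
theorem largest_prime_square (b : ℤ) (hb : Squarefree b) (hb4 : b % 4 = 1) (hb1 : b ≠ 1)
    (ε : ℝ) (hε : 0 < ε) :
    ∃ κ : ℝ, 0 < κ ∧ ∃ C : ℝ, 0 < C ∧ ∃ Y₀ : ℕ, ∀ M Y : ℕ, Y₀ ≤ Y →
      ((PSq b ε M Y).card : ℝ) ≤
        M * Real.exp (-((Y : ℝ) ^ κ)) + C * M * Real.exp (-(SS M / 5)) := by
  classical
  obtain ⟨κ, hκ, C₁, hC₁, Y₀, hfull⟩ := square_u b hb hb4 hb1 (1 / 20) ε (by norm_num)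
    (by norm_num) hε
  have hmain : Tendsto (fun x : ℕ => artinE b x / Nat.primeCounting x) atTop (𝓝 (dens b)) :=
    (dens_eq_dlt hb4).2 (Pool.Agent.Helper7.main_term hb hb4)
  obtain ⟨f, Cf, F⟩ := fam_b b hb hb4 (dens b) hmain
  obtain ⟨T₁, hT₁, N₁, hN₁, C₆, hC₆, htail⟩ := tail_sum F ε hε
  obtain ⟨N₂, hN₂⟩ := vv_small
  obtain ⟨N₃, hN₃⟩ := ss_large (max T₁ 101)
  set N₀ : ℕ := max (max N₁ N₂) (max N₃ 2) with hN₀
  set Cb : ℝ := 2 * N₀ + (2 * C₁ + C₆) with hCb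
  have hCb0 : 0 < Cb := by positivity
  refine ⟨κ, hκ, Cb, hCb0, Y₀, ?_⟩
  intro N Y hY
  set V : ℝ := Real.exp (-(SS N / 5)) with hV
  have hV0 : 0 < V := Real.exp_pos _
  rcases lt_or_ge N N₀ with hsm | hN
  · have h1 : ((PSq b ε N Y).card : ℝ) ≤ N := by
      have h1 : PSq b ε N Y ⊆ Finset.Icc 1 N := by
        intro m hm
        rw [mem_PSq] at hm
        exact Finset.mem_Icc.mpr hm.1
      have h2 := Finset.card_le_card h1
      rw [Nat.card_Icc] at h2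
      exact_mod_cast (by omega : (PSq b ε N Y).card ≤ N)
    have h2 := triv_small hsm
    rw [← hV] at h2
    have h3 : 2 * (N₀ : ℝ) * N * V ≤ Cb * N * V := by
      apply mul_le_mul_of_nonneg_right _ hV0.le
      apply mul_le_mul_of_nonneg_right _ (Nat.cast_nonneg _)
      rw [hCb]
      have : 0 ≤ 2 * C₁ + C₆ := by positivity
      linarith
    have h4 : 0 ≤ (N : ℝ) * Real.exp (-((Y : ℝ) ^ κ)) := by positivity
    have h5 : (0 : ℝ) ≤ N := Nat.cast_nonneg _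
    linarith
  have hN1' : N₁ ≤ N := ((le_max_left _ _).trans (le_max_left _ _)).trans hN
  have hN2' : N₂ ≤ N := ((le_max_right _ _).trans (le_max_left _ _)).trans hN
  have hN3' : N₃ ≤ N := ((le_max_left _ _).trans (le_max_right _ _)).trans hN
  have hN2 : 2 ≤ N := ((le_max_right _ _).trans (le_max_right _ _)).trans hN
  have hN1 : 1 ≤ N := by omega
  have hNpos : (0 : ℝ) < N := by exact_mod_cast hN1
  have hlN : 0 ≤ Real.log N := Real.log_natCast_nonneg N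
  obtain ⟨T₀, hT₀⟩ : ∃ T₀ : ℝ, T₀ = Real.exp (SS N) := ⟨_, rfl⟩
  have hvv := hN₂ N hN2'
  obtain ⟨hB1, hB2⟩ := hN₃ N hN3'
  rw [← hT₀] at hvv hB1 hB2
  rw [← hV] at hvv
  have hT1T : T₁ ≤ T₀ := (le_max_left _ _).trans hB1
  have hT4 : 4 ≤ T₀ := hT₁.trans hT1T
  have hlogT : 101 * Real.log N ≤ T₀ :=
    (mul_le_mul_of_nonneg_right (le_max_right T₁ 101) hlN).trans hB2
  have hpow : T₀ ^ (-(1 / 4) : ℝ) ≤ V := by
    rw [hT₀, ← Real.exp_mul, hV]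
    apply Real.exp_le_exp.mpr
    have := SS_nonneg N
    linarith
  set D₃ : Finset ℕ := (Finset.Icc 1 N).filter (fun m : ℕ => ∃ q : ℕ, q.Prime ∧ q ∣ m ∧
    ∃ x : ℕ, Real.exp T₀ < x ∧ (x : ℝ) ≤ Real.exp ((q : ℝ) ^ (1 / 13 : ℝ)) ∧
    ε < |artinP (b * (m : ℤ) ^ 2) x / Nat.primeCounting x - dens b|) with hD₃
  have hD₃c : (D₃.card : ℝ) ≤ C₆ * N * T₀ ^ (-(1 / 4) : ℝ) := by
    apply htail N hN1' T₀ hT1T hlogT D₃
    · intro m hm
      rw [hD₃, Finset.mem_filter, Finset.mem_Icc] at hm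
      exact hm.1
    · intro m hm
      rw [hD₃, Finset.mem_filter] at hm
      exact hm.2
  have hsub : PSq b ε N Y ⊆ SqBad b ε N Y (Real.exp T₀) ∪ D₃ := by
    intro m hm
    rw [mem_PSq] at hm
    obtain ⟨hmI, q, hq, hqm, x, hx1, hx2, hx3⟩ := hm
    rw [Finset.mem_union]
    by_cases hxb : (x : ℝ) ≤ Real.exp T₀
    · left
      rw [mem_SqBad]
      exact ⟨hmI, x, hx1, hxb, hx3⟩
    · right
      rw [hD₃, Finset.mem_filter, Finset.mem_Icc]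
      exact ⟨hmI, q, hq, hqm, x, not_le.mp hxb, hx2, hx3⟩
  have hcard : ((PSq b ε N Y).card : ℝ) ≤ (SqBad b ε N Y (Real.exp T₀)).card + D₃.card := by
    exact_mod_cast (Finset.card_le_card hsub).trans (Finset.card_union_le _ _)
  have hz := hfull N Y hY T₀ (by linarith)
  have e1 : C₁ * (N : ℝ) ^ (1 / 2 + 1 / 20 : ℝ) ≤ C₁ * (N * V) :=
    mul_le_mul_of_nonneg_left (pow_le_exp hN1 (by norm_num)) hC₁.le
  have e2 : C₁ * N * vv (1 / 20) N T₀ ≤ C₁ * (N * V) := by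
    rw [mul_assoc]
    exact mul_le_mul_of_nonneg_left (mul_le_mul_of_nonneg_left hvv hNpos.le) hC₁.le
  have e3 : C₆ * N * T₀ ^ (-(1 / 4) : ℝ) ≤ C₆ * (N * V) := by
    rw [mul_assoc]
    exact mul_le_mul_of_nonneg_left (mul_le_mul_of_nonneg_left hpow hNpos.le) hC₆.le
  have e5 : Cb * N * V = 2 * N₀ * (N * V) + (2 * C₁ * (N * V) + C₆ * (N * V)) := by
    rw [hCb]; ring
  have e6 : 0 ≤ 2 * (N₀ : ℝ) * (N * V) := by positivity
  linarith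

end Pool.Agent.ARP
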